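import Pool.Agent.X268.DH.Cor

open Finset

namespace Pool.Agent.X268.DH

theorem sum_four (F : ℕ → ℤ) (N a b c d : ℕ) (hab : a < b) (hbc : b < c) (hcd : c < d) (hd : d < N)
    (h : ∀ p, p < N → p ≠ a → p ≠ b → p ≠ c → p ≠ d → F p = 0) :
    ∑ p ∈ range N, F p = F a + F b + F c + F d := by
  have hsub : ({a, b, c, d} : Finset ℕ) ⊆ range N := by
    intro x hx
    simp only [mem_insert, mem_singleton] at hx
    rw [mem_range]
    omega
  rw [← sum_subset hsub fun p hp hp2 => by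
    simp only [mem_insert, mem_singleton, not_or] at hp2
    exact h p (mem_range.mp hp) hp2.1 hp2.2.1 hp2.2.2.1 hp2.2.2.2]
  rw [sum_insert, sum_insert, sum_insert, sum_singleton]
  · ring
  · simp only [mem_singleton]; omega
  · simp only [mem_insert, mem_singleton]; omega
  · simp only [mem_insert, mem_singleton]; omega

theorem sum_three (F : ℕ → ℤ) (N a b c : ℕ) (hab : a < b) (hbc : b < c) (hd : c < N)
    (h : ∀ p, p < N → p ≠ a → p ≠ b → p ≠ c → F p = 0) :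
    ∑ p ∈ range N, F p = F a + F b + F c := by
  have hsub : ({a, b, c} : Finset ℕ) ⊆ range N := by
    intro x hx
    simp only [mem_insert, mem_singleton] at hx
    rw [mem_range]
    omega
  rw [← sum_subset hsub fun p hp hp2 => by
    simp only [mem_insert, mem_singleton, not_or] at hp2
    exact h p (mem_range.mp hp) hp2.1 hp2.2.1 hp2.2.2]
  rw [sum_insert, sum_insert, sum_singleton]
  · ring
  · simp only [mem_singleton]; omega
  · simp only [mem_insert, mem_singleton]; omega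

theorem double_sum (N : ℕ) (w : ℕ → ℤ) (g : ℕ → ℕ → ℤ) (e : ℕ → ℤ)
    (h : ∀ p q, g p q = if p = q then e p else 0) :
    ∑ p ∈ range N, ∑ q ∈ range N, (-1) ^ (p + q) * w p * g p q = ∑ p ∈ range N, w p * e p := by
  refine sum_congr rfl fun p hp => ?_
  rw [sum_eq_single p]
  · rw [h, if_pos rfl, Even.neg_one_pow ⟨p, rfl⟩, one_mul]
  · intro q _ hq
    rw [h, if_neg (Ne.symm hq), mul_zero]
  · intro h0
    exact absurd hp h0

theorem arith_even_even {n m t : ℕ} (hn : 5 ≤ n) (hm : n = 2 * m) (ht : m = 2 * t) (e : ℤ → ℤ)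
    (hlow : ∀ p : ℤ, 2 * p + 3 ≤ n → p ≠ 1 → e p = 0)
    (hrefl : ∀ p : ℤ, 2 * p ≤ n → e (n - p) = e p)
    (r1' : ∑ i ∈ range (n + 1), e ((m : ℤ) - 1 - 2 * i) = 0)
    (r2' : e m + 2 * ∑ i ∈ range (n + 1), e ((m : ℤ) - 2 - 2 * i) = 0)
    (hLW : 3 * ∑ p ∈ range (n + 1), (2 * (p : ℤ) - n) ^ 2 * e p =
      n * ∑ p ∈ range (n + 1), e p) : e 1 = 0 := by
  have hn1 : e (n - 1) = e 1 := hrefl 1 (by omega)
  have hhigh : ∀ p : ℤ, (n : ℤ) + 3 ≤ 2 * p → p ≠ n - 1 → e p = 0 := by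
    intro p hp hp1
    have h1 := hrefl ((n : ℤ) - p) (by omega)
    rw [show (n : ℤ) - ((n : ℤ) - p) = p by ring] at h1
    rw [h1]
    exact hlow _ (by omega) (by omega)
  have s1 : ∑ i ∈ range (n + 1), e ((m : ℤ) - 1 - 2 * i) = e (m - 1) + e 1 := by
    rw [sum_eq_add_of_mem (s := range (n + 1)) (f := fun i : ℕ => e ((m : ℤ) - 1 - 2 * i)) 0 (t - 1)
      (by rw [mem_range]; omega) (by rw [mem_range]; omega) (by omega)
      (fun i _ hi => hlow _ (by omega) (by omega))]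
    have e1 : (m : ℤ) - 1 - 2 * ((0 : ℕ) : ℤ) = m - 1 := by push_cast; ring
    have e2 : (m : ℤ) - 1 - 2 * ((t - 1 : ℕ) : ℤ) = 1 := by
      rw [Nat.cast_sub (by omega)]; push_cast; omega
    show e ((m : ℤ) - 1 - 2 * ((0 : ℕ) : ℤ)) + e ((m : ℤ) - 1 - 2 * ((t - 1 : ℕ) : ℤ)) = _
    rw [e1, e2]
  have s2 : ∑ i ∈ range (n + 1), e ((m : ℤ) - 2 - 2 * i) = 0 :=
    sum_eq_zero fun i _ => hlow _ (by omega) (by omega)
  rw [s1] at r1'
  rw [s2, mul_zero, add_zero] at r2'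
  have hm1 : e (m + 1) = e (m - 1) := by
    have := hrefl (m - 1) (by omega)
    rw [← this]
    congr 1
    omega
  have hz : ∀ p : ℕ, p < n + 1 → p ≠ 1 → p ≠ m - 1 → p ≠ m + 1 → p ≠ n - 1 → e p = 0 := by
    intro p hp h1 h2 h3 h4
    by_cases hp2 : 2 * p + 3 ≤ n
    · exact hlow p (by exact_mod_cast hp2) (by omega)
    · by_cases hp3 : n + 3 ≤ 2 * p
      · exact hhigh p (by exact_mod_cast hp3) (by omega)
      · have : p = m := by omega
        rw [this]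
        exact r2'
  rw [sum_four (fun p => (2 * (p : ℤ) - n) ^ 2 * e p) (n + 1) 1 (m - 1) (m + 1) (n - 1)
    (by omega) (by omega) (by omega) (by omega)
    (fun p hp h1 h2 h3 h4 => by
      show (2 * (p : ℤ) - n) ^ 2 * e p = 0
      rw [hz p hp h1 h2 h3 h4, mul_zero]),
    sum_four (fun p => e p) (n + 1) 1 (m - 1) (m + 1) (n - 1)
    (by omega) (by omega) (by omega) (by omega)
    (fun p hp h1 h2 h3 h4 => hz p hp h1 h2 h3 h4)] at hLW
  have c1 : ((m - 1 : ℕ) : ℤ) = m - 1 := by rw [Nat.cast_sub (by omega)]; push_cast; ring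
  have c2 : ((n - 1 : ℕ) : ℤ) = n - 1 := by rw [Nat.cast_sub (by omega)]; push_cast; ring
  rw [c1, c2] at hLW
  push_cast at hLW
  have hm' : (n : ℤ) = 2 * m := by exact_mod_cast hm
  have hneg : e (m - 1) = - e 1 := by linarith
  rw [hn1, hm1, hneg, hm'] at hLW
  have hfac : (8 * (m : ℤ) * (m - 2)) * e 1 = 0 := by
    have : (3 : ℤ) * ((8 * (m : ℤ) * (m - 2)) * e 1) = 0 := by linarith
    linarith
  rcases mul_eq_zero.mp hfac with h5 | h5
  · exfalso
    have h6 : (4 : ℤ) ≤ m := by omega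
    nlinarith
  · exact h5

theorem arith_even_odd {n m t : ℕ} (hn : 5 ≤ n) (hm : n = 2 * m) (ht : m = 2 * t + 1) (e : ℤ → ℤ)
    (hlow : ∀ p : ℤ, 2 * p + 3 ≤ n → p ≠ 1 → e p = 0)
    (hrefl : ∀ p : ℤ, 2 * p ≤ n → e (n - p) = e p)
    (r1' : ∑ i ∈ range (n + 1), e ((m : ℤ) - 1 - 2 * i) = 0)
    (r2' : e m + 2 * ∑ i ∈ range (n + 1), e ((m : ℤ) - 2 - 2 * i) = 0)
    (hLW : 3 * ∑ p ∈ range (n + 1), (2 * (p : ℤ) - n) ^ 2 * e p =
      n * ∑ p ∈ range (n + 1), e p) : e 1 = 0 := by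
  have hn1 : e (n - 1) = e 1 := hrefl 1 (by omega)
  have hhigh : ∀ p : ℤ, (n : ℤ) + 3 ≤ 2 * p → p ≠ n - 1 → e p = 0 := by
    intro p hp hp1
    have h1 := hrefl ((n : ℤ) - p) (by omega)
    rw [show (n : ℤ) - ((n : ℤ) - p) = p by ring] at h1
    rw [h1]
    exact hlow _ (by omega) (by omega)
  have s1 : ∑ i ∈ range (n + 1), e ((m : ℤ) - 1 - 2 * i) = e (m - 1) := by
    rw [sum_eq_single_of_mem (s := range (n + 1)) (f := fun i : ℕ => e ((m : ℤ) - 1 - 2 * i)) 0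
      (by rw [mem_range]; omega) (fun i _ hi => hlow _ (by omega) (by omega))]
    have e1 : (m : ℤ) - 1 - 2 * ((0 : ℕ) : ℤ) = m - 1 := by push_cast; ring
    show e ((m : ℤ) - 1 - 2 * ((0 : ℕ) : ℤ)) = _
    rw [e1]
  have s2 : ∑ i ∈ range (n + 1), e ((m : ℤ) - 2 - 2 * i) = e 1 := by
    rw [sum_eq_single_of_mem (s := range (n + 1)) (f := fun i : ℕ => e ((m : ℤ) - 2 - 2 * i))
      (t - 1) (by rw [mem_range]; omega) (fun i _ hi => hlow _ (by omega) (by omega))]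
    have e2 : (m : ℤ) - 2 - 2 * ((t - 1 : ℕ) : ℤ) = 1 := by
      rw [Nat.cast_sub (by omega)]; push_cast; omega
    show e ((m : ℤ) - 2 - 2 * ((t - 1 : ℕ) : ℤ)) = _
    rw [e2]
  rw [s1] at r1'
  rw [s2] at r2'
  have hm1 : e (m + 1) = e (m - 1) := by
    have := hrefl (m - 1) (by omega)
    rw [← this]
    congr 1
    omega
  have hz : ∀ p : ℕ, p < n + 1 → p ≠ 1 → p ≠ m → p ≠ n - 1 → e p = 0 := by
    intro p hp h1 h2 h4
    by_cases hp2 : 2 * p + 3 ≤ n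
    · exact hlow p (by exact_mod_cast hp2) (by omega)
    · by_cases hp3 : n + 3 ≤ 2 * p
      · exact hhigh p (by exact_mod_cast hp3) (by omega)
      · have : (p : ℤ) = m - 1 ∨ (p : ℤ) = m + 1 := by omega
        rcases this with h5 | h5
        · rw [h5]
          exact r1'
        · rw [h5, hm1]
          exact r1'
  rw [sum_three (fun p => (2 * (p : ℤ) - n) ^ 2 * e p) (n + 1) 1 m (n - 1)
    (by omega) (by omega) (by omega)
    (fun p hp h1 h2 h3 => by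
      show (2 * (p : ℤ) - n) ^ 2 * e p = 0
      rw [hz p hp h1 h2 h3, mul_zero]),
    sum_three (fun p => e p) (n + 1) 1 m (n - 1)
    (by omega) (by omega) (by omega)
    (fun p hp h1 h2 h3 => hz p hp h1 h2 h3)] at hLW
  have c2 : ((n - 1 : ℕ) : ℤ) = n - 1 := by rw [Nat.cast_sub (by omega)]; push_cast; ring
  rw [c2] at hLW
  push_cast at hLW
  have hm' : (n : ℤ) = 2 * m := by exact_mod_cast hm
  have hneg : e m = - 2 * e 1 := by linarith
  rw [hn1, hneg, hm'] at hLW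
  have hfac : (8 * ((m : ℤ) - 1) ^ 2) * e 1 = 0 := by
    have : (3 : ℤ) * ((8 * ((m : ℤ) - 1) ^ 2) * e 1) = 0 := by linarith
    linarith
  rcases mul_eq_zero.mp hfac with h5 | h5
  · exfalso
    have h6 : (3 : ℤ) ≤ m := by omega
    nlinarith
  · exact h5

theorem arith_odd {n m : ℕ} (hn : 5 ≤ n) (hm : n = 2 * m + 1) (e : ℤ → ℤ)
    (hlow : ∀ p : ℤ, 2 * p + 3 ≤ n → p ≠ 1 → e p = 0)
    (hrefl : ∀ p : ℤ, 2 * p ≤ n → e (n - p) = e p)
    (r' : ∑ i ∈ range (n + 1), e ((m : ℤ) - i) = 0)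
    (hLW : 3 * ∑ p ∈ range (n + 1), (2 * (p : ℤ) - n) ^ 2 * e p =
      n * ∑ p ∈ range (n + 1), e p) : e 1 = 0 := by
  have hn1 : e (n - 1) = e 1 := hrefl 1 (by omega)
  have hhigh : ∀ p : ℤ, (n : ℤ) + 3 ≤ 2 * p → p ≠ n - 1 → e p = 0 := by
    intro p hp hp1
    have h1 := hrefl ((n : ℤ) - p) (by omega)
    rw [show (n : ℤ) - ((n : ℤ) - p) = p by ring] at h1
    rw [h1]
    exact hlow _ (by omega) (by omega)
  have s1 : ∑ i ∈ range (n + 1), e ((m : ℤ) - i) = e m + e 1 := by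
    rw [sum_eq_add_of_mem (s := range (n + 1)) (f := fun i : ℕ => e ((m : ℤ) - i)) 0 (m - 1)
      (by rw [mem_range]; omega) (by rw [mem_range]; omega) (by omega)
      (fun i _ hi => hlow _ (by omega) (by omega))]
    have e1 : (m : ℤ) - ((0 : ℕ) : ℤ) = m := by push_cast; ring
    have e2 : (m : ℤ) - ((m - 1 : ℕ) : ℤ) = 1 := by
      rw [Nat.cast_sub (by omega)]; push_cast; omega
    show e ((m : ℤ) - ((0 : ℕ) : ℤ)) + e ((m : ℤ) - ((m - 1 : ℕ) : ℤ)) = _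
    rw [e1, e2]
  rw [s1] at r'
  have hm1 : e (m + 1) = e m := by
    have := hrefl m (by omega)
    rw [← this]
    congr 1
    omega
  have hz : ∀ p : ℕ, p < n + 1 → p ≠ 1 → p ≠ m → p ≠ m + 1 → p ≠ n - 1 → e p = 0 := by
    intro p hp h1 h2 h3 h4
    by_cases hp2 : 2 * p + 3 ≤ n
    · exact hlow p (by exact_mod_cast hp2) (by omega)
    · exact hhigh p (by omega) (by omega)
  rw [sum_four (fun p => (2 * (p : ℤ) - n) ^ 2 * e p) (n + 1) 1 m (m + 1) (n - 1)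
    (by omega) (by omega) (by omega) (by omega)
    (fun p hp h1 h2 h3 h4 => by
      show (2 * (p : ℤ) - n) ^ 2 * e p = 0
      rw [hz p hp h1 h2 h3 h4, mul_zero]),
    sum_four (fun p => e p) (n + 1) 1 m (m + 1) (n - 1)
    (by omega) (by omega) (by omega) (by omega)
    (fun p hp h1 h2 h3 h4 => hz p hp h1 h2 h3 h4)] at hLW
  have c2 : ((n - 1 : ℕ) : ℤ) = n - 1 := by rw [Nat.cast_sub (by omega)]; push_cast; ring
  rw [c2] at hLW
  push_cast at hLW
  have hm' : (n : ℤ) = 2 * m + 1 := by exact_mod_cast hm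
  have hneg : e m = - e 1 := by linarith
  rw [hn1, hm1, hneg, hm'] at hLW
  have hfac : (8 * (m : ℤ) * (m - 1)) * e 1 = 0 := by
    have : (3 : ℤ) * ((8 * (m : ℤ) * (m - 1)) * e 1) = 0 := by linarith
    linarith
  rcases mul_eq_zero.mp hfac with h5 | h5
  · exfalso
    have h6 : (2 : ℤ) ≤ m := by omega
    nlinarith
  · exact h5

end Pool.Agent.X268.DH
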