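import Pool.Agent.X268.DH.Rank

open scoped ComplexConjugate
open Module Finset

namespace Pool.Agent.X268.DH

open Pool.Agent.W539.DI

variable {n : ℕ} {X Y : Fib n}

theorem AA_step (X : Fib n) (j N : ℕ) : ∀ (p q : ℤ),
    AA X j (2 * N + 1) p q = mult X j p q + ∑ i ∈ range N,
      (mult X j (p - 2 - 2 * i) (q - 2 - 2 * i) - mult X j (p - 1 - 2 * i) (q - 1 - 2 * i)) := by
  induction N with
  | zero => intro p q; simp [AA]
  | succ N ih =>
    intro p q
    have e : AA X j (2 * (N + 1) + 1) p q = mult X j p q - (mult X j (p - 1) (q - 1) -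
        AA X j (2 * N + 1) (p - 1 - 1) (q - 1 - 1)) := rfl
    rw [e, ih, sum_range_succ']
    have e2 : ∀ i : ℕ, (mult X j (p - 2 - 2 * ((i + 1 : ℕ) : ℤ)) (q - 2 - 2 * ((i + 1 : ℕ) : ℤ)) -
        mult X j (p - 1 - 2 * ((i + 1 : ℕ) : ℤ)) (q - 1 - 2 * ((i + 1 : ℕ) : ℤ))) =
        (mult X j (p - 1 - 1 - 2 - 2 * i) (q - 1 - 1 - 2 - 2 * i) -
          mult X j (p - 1 - 1 - 1 - 2 * i) (q - 1 - 1 - 1 - 2 * i)) := by
      intro i
      congr 2 <;> push_cast <;> ring
    rw [sum_congr rfl fun i _ => e2 i]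
    have e3 : mult X j (p - 1 - 1) (q - 1 - 1) =
        mult X j (p - 2 - 2 * ((0 : ℕ) : ℤ)) (q - 2 - 2 * ((0 : ℕ) : ℤ)) := by
      congr 1 <;> push_cast <;> ring
    have e4 : mult X j (p - 1) (q - 1) =
        mult X j (p - 1 - 2 * ((0 : ℕ) : ℤ)) (q - 1 - 2 * ((0 : ℕ) : ℤ)) := by
      congr 1 <;> push_cast <;> ring
    rw [e3, e4]
    ring

theorem sum_pairs' (g : ℕ → ℤ) (N : ℕ) :
    ∑ j ∈ range (2 * N), g j = ∑ i ∈ range N, (g (2 * i) + g (2 * i + 1)) := by
  induction N with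
  | zero => simp
  | succ N ih =>
    rw [sum_range_succ, ← ih, show 2 * (N + 1) = 2 * N + 1 + 1 from rfl,
      sum_range_succ, sum_range_succ]
    ring

theorem ff_pairs (X : Fib n) (j M : ℕ) (a b : ℤ) :
    ff X j (2 * M) a b = ∑ i ∈ range M, (mult X j (a - 1 - 2 * i) (b - 1 - 2 * i) +
      mult X j (a - 2 - 2 * i) (b - 2 - 2 * i)) := by
  unfold ff
  rw [sum_pairs']
  refine sum_congr rfl fun i _ => ?_
  congr 2 <;> push_cast <;> ring

/-- Vanishing of the multiplicities. -/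
theorem mult_neg (X : Fib n) (j : ℕ) {p q : ℤ} (h : p < 0 ∨ q < 0) : mult X j p q = 0 :=
  mult_van j (X.van p q h)

theorem mult_big (X : Fib n) (j : ℕ) {p q : ℤ} (h : (n : ℤ) < p ∨ (n : ℤ) < q) :
    mult X j p q = 0 :=
  mult_van j (X.van_top h)

/-- The relations for `p - q ≡ n - j` modulo two. -/
theorem relations (hX : RelPol X) (hY : RelPol Y) (Φ : SFM X Y) {j : ℕ}
    {a b : ℤ} (hab : a + b + j = n) (h1 : 0 ≤ a + b) (ha : a ≤ n) :
    (∑ i ∈ range (n + 1), mult X j (a - 1 - 2 * i) (b - 1 - 2 * i) =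
      ∑ i ∈ range (n + 1), mult Y j (a - 1 - 2 * i) (b - 1 - 2 * i)) ∧
    (mult X j a b + 2 * ∑ i ∈ range (n + 1), mult X j (a - 2 - 2 * i) (b - 2 - 2 * i) =
      mult Y j a b + 2 * ∑ i ∈ range (n + 1), mult Y j (a - 2 - 2 * i) (b - 2 - 2 * i)) := by
  have h := main hX hY Φ hab h1 (N := 2 * (n + 1)) (by omega) (2 * (n + 1) + 1)
    (by push_cast; omega)
  rw [AA_step, AA_step, ff_pairs, ff_pairs] at h
  simp only [sum_add_distrib, sum_sub_distrib] at h
  obtain ⟨h2, h3⟩ := h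
  constructor <;> linarith

/-- The relations for `p - q ≢ n - j` modulo two. -/
theorem relations_odd (hX : RelPol X) (hY : RelPol Y) (Φ : SFM X Y) {j : ℕ}
    {a b : ℤ} (hab : a + b + j + 1 = n) (h1 : 0 ≤ a + b + 1) :
    ∑ i ∈ range (n + 1), mult X j (a - i) (b - i) =
      ∑ i ∈ range (n + 1), mult Y j (a - i) (b - i) := by
  have h := sfm_total Φ j (a := a) (b := b) (N := n + 1) h1 (by omega) le_rfl
  have key : ∀ Z : Fib n, RelPol Z →
      ∑ k ∈ Icc (-((n + 1 : ℕ) : ℤ)) ((n + 1 : ℕ) : ℤ), mult Z j (a + k) (b + k) =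
        2 * ∑ i ∈ range (n + 1), mult Z j (a - i) (b - i) := by
    intro Z hZ
    rw [sum_Icc, sum_add_distrib]
    have e1 : ∑ i ∈ range (n + 1), mult Z j (a + ((i : ℤ) + 1)) (b + ((i : ℤ) + 1)) =
        ∑ i ∈ range (n + 1), mult Z j (a - i) (b - i) := by
      refine sum_congr rfl fun i _ => ?_
      rw [mult_symm hZ (j := j) (s := 2 * i + 1) (p := a - i) (q := b - i) (by push_cast; omega)]
      congr 1 <;> push_cast <;> ring
    have e2 : mult Z j (a + 0) (b + 0) +
        ∑ i ∈ range (n + 1), mult Z j (a + -((i : ℤ) + 1)) (b + -((i : ℤ) + 1)) =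
        ∑ i ∈ range (n + 1), mult Z j (a - i) (b - i) := by
      have e3 := sum_range_succ' (fun i : ℕ => mult Z j (a - i) (b - i)) (n + 1)
      rw [sum_range_succ] at e3
      have e4 : mult Z j (a - ((n + 1 : ℕ) : ℤ)) (b - ((n + 1 : ℕ) : ℤ)) = 0 :=
        mult_neg Z j (by push_cast; omega)
      rw [e4, add_zero] at e3
      rw [e3, add_comm]
      congr 1
    rw [add_left_comm, e2, e1]
    ring
  rw [key X hX, key Y hY] at h
  linarith

/-- Multiplicities above the centre. -/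
theorem mult_reflect (hX : RelPol X) {j t : ℕ} {p q : ℤ} (h : p + q + j = n + t) :
    mult X j p q = mult X j (p - t) (q - t) := by
  rw [mult_symm hX (j := j) (s := t) (p := p - t) (q := q - t) (by omega)]
  congr 1 <;> ring

/-- Agreement in degree `-d` for `d ≤ 2` follows from the agreement in degrees at most `-3`. -/
theorem agree_low (hX : RelPol X) (hY : RelPol Y) (Φ : SFM X Y)
    {j d : ℕ} {p q : ℤ} (h : p + q + j + d = n) (hd : d ≤ 2)
    (hlow : ∀ k : ℕ, 3 ≤ d + 2 * k → mult X j (p - k) (q - k) = mult Y j (p - k) (q - k)) :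
    mult X j p q = mult Y j p q := by
  by_cases hpq : p < 0 ∨ q < 0
  · rw [mult_neg X j hpq, mult_neg Y j hpq]
  push Not at hpq
  interval_cases d
  · have h2 := (relations hX hY Φ (j := j) (a := p) (b := q) (by push_cast at h; omega)
      (by omega) (by omega)).2
    have e : ∀ i ∈ range (n + 1), mult X j (p - 2 - 2 * i) (q - 2 - 2 * i) =
        mult Y j (p - 2 - 2 * i) (q - 2 - 2 * i) := by
      intro i _
      have := hlow (2 * i + 2) (by omega)
      have e1 : p - 2 - 2 * (i : ℤ) = p - ((2 * i + 2 : ℕ) : ℤ) := by push_cast; ring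
      have e2 : q - 2 - 2 * (i : ℤ) = q - ((2 * i + 2 : ℕ) : ℤ) := by push_cast; ring
      rw [e1, e2]
      exact this
    rw [sum_congr rfl e] at h2
    linarith
  · have h2 := relations_odd hX hY Φ (j := j) (a := p) (b := q) (by push_cast at h; omega)
      (by omega)
    rw [sum_range_succ', sum_range_succ'] at h2
    have e : ∀ i ∈ range n, mult X j (p - ((i + 1 : ℕ) : ℤ)) (q - ((i + 1 : ℕ) : ℤ)) =
        mult Y j (p - ((i + 1 : ℕ) : ℤ)) (q - ((i + 1 : ℕ) : ℤ)) := fun i _ =>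
      hlow (i + 1) (by omega)
    rw [sum_congr rfl e] at h2
    simp only [Nat.cast_zero, sub_zero] at h2
    linarith
  · have h2 := (relations hX hY Φ (j := j) (a := p + 1) (b := q + 1)
      (by push_cast at h; omega) (by omega) (by omega)).1
    rw [sum_range_succ', sum_range_succ'] at h2
    have e : ∀ i ∈ range n, mult X j (p + 1 - 1 - 2 * ((i + 1 : ℕ) : ℤ))
        (q + 1 - 1 - 2 * ((i + 1 : ℕ) : ℤ)) =
        mult Y j (p + 1 - 1 - 2 * ((i + 1 : ℕ) : ℤ)) (q + 1 - 1 - 2 * ((i + 1 : ℕ) : ℤ)) := by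
      intro i _
      have := hlow (2 * (i + 1)) (by omega)
      have e1 : p + 1 - 1 - 2 * ((i + 1 : ℕ) : ℤ) = p - ((2 * (i + 1) : ℕ) : ℤ) := by
        push_cast; ring
      have e2 : q + 1 - 1 - 2 * ((i + 1 : ℕ) : ℤ) = q - ((2 * (i + 1) : ℕ) : ℤ) := by
        push_cast; ring
      rw [e1, e2]
      exact this
    rw [sum_congr rfl e] at h2
    simp only [Nat.cast_zero, mul_zero, sub_zero, add_sub_cancel_right] at h2
    linarith

/-- Reduction to the lower half. -/
theorem agree_all (hX : RelPol X) (hY : RelPol Y) {j : ℕ}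
    (h : ∀ p q : ℤ, p + q + j ≤ n → mult X j p q = mult Y j p q) (p q : ℤ) :
    mult X j p q = mult Y j p q := by
  by_cases hpq : p + q + j ≤ n
  · exact h p q hpq
  · obtain ⟨t, ht⟩ := Int.eq_ofNat_of_zero_le (show 0 ≤ p + q + j - n by omega)
    rw [mult_reflect hX (t := t) (by omega), mult_reflect hY (t := t) (by omega)]
    exact h _ _ (by omega)

/-- Agreement of the multiplicities in perverse degrees at most `-3` implies the agreement of all
the multiplicities. -/
theorem agree_of_low (hX : RelPol X) (hY : RelPol Y) (Φ : SFM X Y)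
    {j : ℕ} (h : ∀ p q : ℤ, p + q + j + 3 ≤ n → mult X j p q = mult Y j p q) (p q : ℤ) :
    mult X j p q = mult Y j p q := by
  refine agree_all hX hY (fun p q hpq => ?_) p q
  obtain ⟨d, hd⟩ := Int.eq_ofNat_of_zero_le (show 0 ≤ n - (p + q + j) by omega)
  by_cases h3 : 3 ≤ d
  · exact h p q (by omega)
  · exact agree_low hX hY Φ (d := d) (by omega) (by omega) fun k hk => h _ _ (by omega)

/-- **All dimensions.** -/
theorem hodge_of_low (hX : RelPol X) (hY : RelPol Y) (Φ : SFM X Y)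
    (h : ∀ (j : ℕ) (p q : ℤ), p + q + j + 3 ≤ n → mult X j p q = mult Y j p q) (p q : ℤ) :
    X.h p q = Y.h p q := by
  have h1 := h_diff (X := X) (Y := Y) (fun j _ => agree_of_low hX hY Φ (h j)) p q
  rw [agree_of_low hX hY Φ (h 0) p q] at h1
  omega

/-! ### Fivefolds -/

/-- The Euler characteristic. -/
noncomputable def euler (X : Fib n) : ℤ :=
  ∑ p ∈ range (n + 1), ∑ q ∈ range (n + 1), (-1) ^ (p + q) * (X.h p q : ℤ)

/-- The sum `∑ (-1)^{p+q} (2 p - n)^2 h^{p,q}`. -/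
noncomputable def moment (X : Fib n) : ℤ :=
  ∑ p ∈ range (n + 1), ∑ q ∈ range (n + 1), (-1) ^ (p + q) * (2 * (p : ℤ) - n) ^ 2 * (X.h p q : ℤ)

/-- The formula `∑ (-1)^{p+q} (p - n/2)^2 h^{p,q} = (n / 12) c_n + (1 / 6) c_1 c_{n-1}` of Libgober
and Wood, where `c_n` is the Euler characteristic and `C` is the Chern number `c_1 c_{n-1}`. -/
def LibgoberWood (X : Fib n) (C : ℤ) : Prop := 3 * moment X = n * euler X + 2 * C

end Pool.Agent.X268.DH
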