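import Pool.Agent.W539.DI.Cor

open scoped ComplexConjugate
open Module

namespace Pool.Agent.X268.DH

open Pool.Agent.W539.DI

variable {n : ℕ}

/-- The cohomology of a smooth projective variety `X` of dimension `n` (with its first Chern
class `c`) together with a real class `l` of type `(1, 1)`: the inverse image of an ample class
under a morphism `f : X → S` to a projective variety. -/
structure Fib (n : ℕ) extends KRing n where
  /-- the inverse image of an ample class of the base -/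
  l : R
  l_mem : l ∈ H (1, 1)
  l_bar : bar l = l

/-- The classes killed by the product with `l ^ m`. -/
def Kr (X : Fib n) (m : ℕ) : Submodule ℂ X.R := LinearMap.ker (LinearMap.mulLeft ℂ (X.l ^ m))

/-- The subspace `ker (l ^ j) + l ker (l ^ (j + 2))` of `ker (l ^ (j + 1))`.  The quotient
`ker (l ^ (j + 1)) / Ir j` is the space of the first vectors of the Jordan blocks of length `j + 1`
of the product with `l`. -/
def Ir (X : Fib n) (j : ℕ) : Submodule ℂ X.R :=
  Kr X j ⊔ (Kr X (j + 2)).map (LinearMap.mulLeft ℂ X.l)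

/-- The number of the Jordan blocks of length `j + 1` of the product with `l` which start with a
class of type `(p, q)`. -/
noncomputable def mult (X : Fib n) (j : ℕ) (p q : ℤ) : ℤ :=
  (finrank ℂ (Kr X (j + 1) ⊓ X.H (p, q) : Submodule ℂ X.R) : ℤ) -
    finrank ℂ (Ir X j ⊓ X.H (p, q) : Submodule ℂ X.R)

/-- The relative hard Lefschetz theorem and the generalised Hodge-Riemann relations (de Cataldo,
Migliorini) for the morphism `f`, in terms of the Jordan blocks of `l`: on the space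
`ker (l ^ (j + 1)) / Ir j` the Kähler class `ω` satisfies the hard Lefschetz theorem and the
Hodge-Riemann relations, centred in degree `n - j`, for the forms `∫ l ^ j ω ^ s x bar x`. -/
structure RelPol (X : Fib n) : Prop where
  hl_inj : ∀ (j s : ℕ) (p q : ℤ), p + q + s + j = n → ∀ x ∈ Kr X (j + 1) ⊓ X.H (p, q),
    X.ω ^ s * x ∈ Ir X j → x ∈ Ir X j
  hl_surj : ∀ (j s : ℕ) (p q : ℤ), p + q + s + j = n → ∀ y ∈ Kr X (j + 1) ⊓ X.H (p + s, q + s),
    ∃ x ∈ Kr X (j + 1) ⊓ X.H (p, q), y - X.ω ^ s * x ∈ Ir X j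
  hr : ∀ (j s : ℕ) (p q : ℤ), p + q + s + j = n → ∀ x ∈ Kr X (j + 1) ⊓ X.H (p, q),
    x ∉ Ir X j → X.ω ^ (s + 1) * x ∈ Ir X j →
    ∃ r : ℝ, 0 < r ∧ Complex.I ^ (p - q) * (-1 : ℂ) ^ ((p + q) * (p + q - 1) / 2) *
      X.tr (X.ω ^ s * (X.l ^ j * x * X.bar x)) = (r : ℂ)

/-- The cohomological shape of an `S`-linear equivalence of derived categories: a linear
isomorphism which is real, preserves the grading by `p - q`, is an isometry for the Mukai pairings
and commutes with the product with `l`. -/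
structure SFM (X Y : Fib n) extends FM X.toKRing Y.toKRing where
  lin : ∀ x, φ (X.l * x) = Y.l * φ x

variable {X : Fib n}

theorem mem_Kr {m : ℕ} {x : X.R} : x ∈ Kr X m ↔ X.l ^ m * x = 0 := Iff.rfl

theorem mem_Ir {j : ℕ} {x : X.R} : x ∈ Ir X j ↔
    ∃ u w, X.l ^ j * u = 0 ∧ X.l ^ (j + 2) * w = 0 ∧ u + X.l * w = x := by
  unfold Ir
  rw [Submodule.mem_sup]
  constructor
  · rintro ⟨u, hu, _, ⟨w, hw, rfl⟩, rfl⟩
    exact ⟨u, w, hu, hw, rfl⟩
  · rintro ⟨u, w, hu, hw, rfl⟩
    exact ⟨u, hu, _, ⟨w, hw, rfl⟩, rfl⟩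

theorem lpow (X : Fib n) (k : ℕ) (x : X.R) : X.l ^ k * x = x * X.l ^ k :=
  Commute.pow_left (show Commute X.l x from X.central X.l_mem x) k

theorem Ir_le (j : ℕ) : Ir X j ≤ Kr X (j + 1) := by
  intro x hx
  obtain ⟨u, w, hu, hw, rfl⟩ := mem_Ir.mp hx
  rw [mem_Kr, mul_add, pow_succ', mul_assoc, hu, mul_zero, zero_add, ← mul_assoc, ← pow_succ',
    ← pow_succ]
  exact hw

theorem mul_Kr {m : ℕ} {x : X.R} (hx : x ∈ Kr X m) (y : X.R) : y * x ∈ Kr X m := by
  rw [mem_Kr] at *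
  rw [← mul_assoc, lpow, mul_assoc, hx, mul_zero]

theorem mul_Ir {j : ℕ} {x : X.R} (hx : x ∈ Ir X j) (y : X.R) : y * x ∈ Ir X j := by
  obtain ⟨u, w, hu, hw, rfl⟩ := mem_Ir.mp hx
  refine mem_Ir.mpr ⟨y * u, y * w, mul_Kr (m := j) hu y, mul_Kr (m := j + 2) hw y, ?_⟩
  rw [mul_add, ← mul_assoc X.l, X.central X.l_mem y, mul_assoc]

theorem bar_lpow (X : Fib n) (k : ℕ) (x : X.R) : X.bar (X.l ^ k * x) = X.l ^ k * X.bar x := by
  induction k with
  | zero => simp
  | succ k ih => rw [pow_succ', mul_assoc, X.bar_mul, X.l_bar, ih, mul_assoc]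

theorem bar_Kr {m : ℕ} {x : X.R} (hx : x ∈ Kr X m) : X.bar x ∈ Kr X m := by
  rw [mem_Kr] at *
  rw [← bar_lpow, hx, map_zero]

theorem pair_left {j : ℕ} {x y : X.R} (hx : x ∈ Ir X j) (hy : y ∈ Kr X (j + 1)) :
    X.l ^ j * x * y = 0 := by
  obtain ⟨u, w, hu, hw, rfl⟩ := mem_Ir.mp hx
  rw [mul_add, hu, zero_add, ← mul_assoc, ← pow_succ, lpow, mul_assoc]
  rw [mem_Kr] at hy
  rw [hy, mul_zero]

theorem pair_right {j : ℕ} {x y : X.R} (hx : x ∈ Kr X (j + 1)) (hy : y ∈ Ir X j) :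
    X.l ^ j * x * y = 0 := by
  obtain ⟨u, w, hu, hw, rfl⟩ := mem_Ir.mp hy
  rw [mem_Kr] at hx
  rw [mul_add, lpow, mul_assoc, hu, mul_zero, zero_add]
  rw [show x * X.l ^ j * (X.l * w) = x * (X.l ^ j * X.l) * w by simp only [mul_assoc], ← pow_succ,
    ← lpow, hx, zero_mul]

theorem bar_Ir {j : ℕ} {x : X.R} (hx : x ∈ Ir X j) : X.bar x ∈ Ir X j := by
  obtain ⟨u, w, hu, hw, rfl⟩ := mem_Ir.mp hx
  refine mem_Ir.mpr ⟨X.bar u, X.bar w, bar_Kr (m := j) hu, bar_Kr (m := j + 2) hw, ?_⟩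
  rw [map_add, X.bar_mul, X.l_bar]

/-! ### Homogeneous subspaces -/

/-- The subspace `N` contains the components of its elements. -/
def Homog (X : Fib n) (N : Submodule ℂ X.R) : Prop :=
  ∀ x ∈ N, ∀ i, (DirectSum.decompose X.H x i : X.R) ∈ N

theorem homog_Kr (m : ℕ) : Homog X (Kr X m) := by
  intro x hx i
  rw [mem_Kr] at *
  have h := DirectSum.coe_decompose_mul_add_of_left_mem (𝒜 := X.H) (a := X.l ^ m) (b := x)
    (i := ((m : ℤ), (m : ℤ))) (j := i) (X.pow_mem X.l_mem m)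
  rw [← h, hx]
  simp

theorem homog_Ir (j : ℕ) : Homog X (Ir X j) := by
  intro x hx i
  obtain ⟨u, w, hu, hw, rfl⟩ := mem_Ir.mp hx
  have hi : i = (1, 1) + (i - (1, 1)) := by abel
  have h := DirectSum.coe_decompose_mul_add_of_left_mem (𝒜 := X.H) (a := X.l) (b := w)
    (i := (1, 1)) (j := i - (1, 1)) X.l_mem
  rw [← hi] at h
  rw [DirectSum.decompose_add, DirectSum.add_apply, Submodule.coe_add, h]
  exact mem_Ir.mpr ⟨_, _, homog_Kr j u hu i, homog_Kr (j + 2) w hw _, rfl⟩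

theorem Homog.inf {N : Submodule ℂ X.R} (hN : Homog X N) (a b : ℤ) :
    N ⊓ (⨆ k : ℤ, X.H (a + k, b + k)) = ⨆ k : ℤ, (N ⊓ X.H (a + k, b + k)) := by
  classical
  apply le_antisymm
  · rintro x ⟨hx, hx2⟩
    have hx2' : x ∈ ⨆ k : ℤ, X.H (a + k, b + k) := hx2
    rw [Submodule.mem_iSup_iff_exists_finsupp] at hx2'
    obtain ⟨f, hf, hfx⟩ := hx2'
    have key : ∀ k, f k ∈ N := by
      intro k
      have h1 : (DirectSum.decompose X.H x (a + k, b + k) : X.R) = f k := by
        rw [← hfx, Finsupp.sum, DirectSum.decompose_sum, DFinsupp.finsetSum_apply,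
          Submodule.coe_sum]
        rw [Finset.sum_eq_single k]
        · exact DirectSum.decompose_of_mem_same X.H (hf k)
        · intro l _ hl
          refine DirectSum.decompose_of_mem_ne X.H (hf l) ?_
          intro h
          have := congrArg Prod.fst h
          simp at this
          exact hl this
        · intro hk
          rw [Finsupp.notMem_support_iff] at hk
          rw [hk]
          simp
      rw [← h1]
      exact hN x hx _
    rw [← hfx, Finsupp.sum]
    exact Submodule.sum_mem _ fun k _ => Submodule.mem_iSup_of_mem k ⟨key k, hf k⟩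
  · refine iSup_le fun k => inf_le_inf le_rfl (le_iSup (fun k : ℤ => X.H (a + k, b + k)) k)

/-- Dimension of a sum of graded pieces. -/
theorem finrank_fam (X : Fib n) {a b : ℤ} (D : ℤ → Submodule ℂ X.R)
    (hD : ∀ k, D k ≤ X.H (a + k, b + k)) (s : Finset ℤ) (hs : ∀ k, k ∉ s → X.H (a + k, b + k) = ⊥) :
    finrank ℂ (⨆ k : ℤ, D k : Submodule ℂ X.R) = ∑ k ∈ s, finrank ℂ (D k) := by
  rw [← finrank_iSup_finset D ((X.indep a b).mono hD) s]
  have : (⨆ k : ℤ, D k) = ⨆ k ∈ s, D k := by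
    apply le_antisymm
    · refine iSup_le fun k => ?_
      by_cases hk : k ∈ s
      · exact le_iSup₂ (f := fun k (_ : k ∈ s) => D k) k hk
      · have h := hD k
        rw [hs k hk] at h
        exact h.trans bot_le
    · exact iSup₂_le fun k _ => le_iSup D k
  rw [this]

end Pool.Agent.X268.DH
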