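import Pool.Agent.X268.DH.Arith

open scoped ComplexConjugate
open Module Finset

namespace Pool.Agent.X268.DH

open Pool.Agent.W539.DI

variable {n : ℕ} {X Y : Fib n}

/-- **One unknown multiplicity.** -/
theorem hodge_except (hn : 5 ≤ n) (hX : RelPol X) (hY : RelPol Y) (Φ : SFM X Y)
    (h : ∀ (j : ℕ) (p q : ℤ), p + q + j + 3 ≤ n → ¬ (j = 0 ∧ p = 1 ∧ q = 1) →
      mult X j p q = mult Y j p q)
    (C : ℤ) (hLX : LibgoberWood X C) (hLY : LibgoberWood Y C) (p q : ℤ) :
    X.h p q = Y.h p q := by
  -- the blocks of length at least two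
  have hj : ∀ j, 1 ≤ j → ∀ p q, mult X j p q = mult Y j p q := fun j hj p q =>
    agree_of_low hX hY Φ (fun p q hpq => h j p q (by omega) (by omega)) p q
  -- the blocks of length one, off the diagonal
  have h0 : ∀ p q : ℤ, p ≠ q → mult X 0 p q = mult Y 0 p q := by
    intro p q hpq
    have hlow : ∀ p q : ℤ, p ≠ q → p + q ≤ n → mult X 0 p q = mult Y 0 p q := by
      intro p q hpq hle
      obtain ⟨d, hd⟩ := Int.eq_ofNat_of_zero_le (show 0 ≤ (n : ℤ) - (p + q) by omega)
      by_cases h3 : 3 ≤ d
      · exact h 0 p q (by push_cast; omega) (by omega)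
      · exact agree_low hX hY Φ (d := d) (by push_cast; omega) (by omega) fun k hk =>
          h 0 _ _ (by push_cast; omega) (by omega)
    by_cases hle : p + q ≤ n
    · exact hlow p q hpq hle
    · obtain ⟨t, ht⟩ := Int.eq_ofNat_of_zero_le (show 0 ≤ p + q - n by omega)
      rw [mult_reflect hX (j := 0) (t := t) (by push_cast; omega),
        mult_reflect hY (j := 0) (t := t) (by push_cast; omega)]
      exact hlow _ _ (by omega) (by omega)
  have hd := h_diff hj
  -- the differences on the diagonal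
  obtain ⟨e, he⟩ : ∃ e : ℤ → ℤ, ∀ p, e p = mult X 0 p p - mult Y 0 p p := ⟨_, fun _ => rfl⟩
  have hlow : ∀ p : ℤ, 2 * p + 3 ≤ n → p ≠ 1 → e p = 0 := fun p hp hp1 => by
    rw [he, h 0 p p (by push_cast; omega) (by omega), sub_self]
  have hrefl : ∀ p : ℤ, 2 * p ≤ n → e (n - p) = e p := by
    intro p hp
    obtain ⟨s, hs⟩ := Int.eq_ofNat_of_zero_le (show 0 ≤ (n : ℤ) - 2 * p by omega)
    have h1 : ∀ Z : Fib n, RelPol Z → mult Z 0 (n - p) (n - p) = mult Z 0 p p := by
      intro Z hZ
      rw [mult_symm hZ (j := 0) (s := s) (p := p) (q := p) (by push_cast; omega)]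
      congr 1 <;> omega
    rw [he, he, h1 X hX, h1 Y hY]
  have hg : ∀ p q : ℕ, (X.h p q : ℤ) - Y.h p q = if p = q then e p else 0 := by
    intro p q
    rw [hd]
    split_ifs with hpq
    · rw [hpq, he]
    · rw [h0 p q (by exact_mod_cast hpq), sub_self]
  have hM : moment X - moment Y = ∑ p ∈ range (n + 1), (2 * (p : ℤ) - n) ^ 2 * e p := by
    rw [← double_sum (n + 1) (fun p => (2 * (p : ℤ) - n) ^ 2)
      (fun p q => (X.h p q : ℤ) - Y.h p q) (fun p => e p) hg]
    unfold moment
    rw [← sum_sub_distrib]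
    refine sum_congr rfl fun p _ => ?_
    rw [← sum_sub_distrib]
    refine sum_congr rfl fun q _ => ?_
    ring
  have hE : euler X - euler Y = ∑ p ∈ range (n + 1), e p := by
    have := double_sum (n + 1) (fun p => 1)
      (fun p q => (X.h p q : ℤ) - Y.h p q) (fun p => e p) hg
    simp only [mul_one, one_mul] at this
    rw [← this]
    unfold euler
    rw [← sum_sub_distrib]
    refine sum_congr rfl fun p _ => ?_
    rw [← sum_sub_distrib]
    refine sum_congr rfl fun q _ => ?_
    ring
  have hLW : 3 * (moment X - moment Y) = n * (euler X - euler Y) := by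
    unfold LibgoberWood at hLX hLY
    linarith
  rw [hM, hE] at hLW
  have h1 : e 1 = 0 := by
    rcases Nat.even_or_odd' n with ⟨m, hm | hm⟩
    · obtain ⟨r1, r2⟩ := relations hX hY Φ (j := 0) (a := m) (b := m) (by push_cast; omega)
        (by omega) (by omega)
      have r1' : ∑ i ∈ range (n + 1), e ((m : ℤ) - 1 - 2 * i) = 0 := by
        simp only [he, sum_sub_distrib]
        rw [r1, sub_self]
      have r2' : e m + 2 * ∑ i ∈ range (n + 1), e ((m : ℤ) - 2 - 2 * i) = 0 := by
        simp only [he, sum_sub_distrib]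
        linarith
      rcases Nat.even_or_odd' m with ⟨t, ht | ht⟩
      · exact arith_even_even hn hm ht e hlow hrefl r1' r2' hLW
      · exact arith_even_odd hn hm ht e hlow hrefl r1' r2' hLW
    · have r := relations_odd hX hY Φ (j := 0) (a := m) (b := m) (by push_cast; omega) (by omega)
      have r' : ∑ i ∈ range (n + 1), e ((m : ℤ) - i) = 0 := by
        simp only [he, sum_sub_distrib]
        rw [r, sub_self]
      exact arith_odd hn hm e hlow hrefl r' hLW
  have hlow' : ∀ (p q : ℤ), p + q + (0 : ℕ) + 3 ≤ n → mult X 0 p q = mult Y 0 p q := by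
    intro p q hpq
    by_cases hpq1 : p = 1 ∧ q = 1
    · obtain ⟨rfl, rfl⟩ := hpq1
      rw [he] at h1
      linarith
    · exact h 0 p q hpq (by tauto)
  have := hd p q
  rw [agree_of_low hX hY Φ hlow' p q, sub_self] at this
  omega

end Pool.Agent.X268.DH
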