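import Pool.Agent.X268.DH.Defs

open scoped ComplexConjugate
open Module

namespace Pool.Agent.X268.DH

open Pool.Agent.W539.DI

variable {n : ℕ} {X : Fib n}

/-! ### Poincaré duality and the radical -/

/-- The Poincaré duality map. -/
noncomputable def PD (X : Fib n) (p q p' q' : ℤ) : X.H (p, q) →ₗ[ℂ] Dual ℂ (X.H (p', q')) where
  toFun x :=
    { toFun := fun y => X.tr ((x : X.R) * (y : X.R))
      map_add' := fun y z => by simp [mul_add]
      map_smul' := fun r y => by simp }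
  map_add' x y := by ext z; simp [add_mul]
  map_smul' r x := by ext z; simp

theorem PD_apply (p q p' q' : ℤ) (x : X.H (p, q)) (y : X.H (p', q')) :
    PD X p q p' q' x y = X.tr ((x : X.R) * (y : X.R)) := rfl

theorem PD_inj {p q p' q' : ℤ} (h : p + p' = n) (h' : q + q' = n) :
    Function.Injective (PD X p q p' q') := by
  obtain rfl : p' = n - p := by omega
  obtain rfl : q' = n - q := by omega
  rw [injective_iff_map_eq_zero]
  intro x hx
  refine Subtype.ext (X.pd p q x x.2 fun y hy => ?_)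
  have := LinearMap.congr_fun hx ⟨y, hy⟩
  exact this

theorem PD_finrank {p q p' q' : ℤ} (h : p + p' = n) (h' : q + q' = n) :
    finrank ℂ (X.H (p, q)) = finrank ℂ (Dual ℂ (X.H (p', q'))) := by
  have h1 := LinearMap.finrank_le_finrank_of_injective (PD_inj (X := X) h h')
  have h2 := LinearMap.finrank_le_finrank_of_injective
    (PD_inj (X := X) (p := p') (q := q') (p' := p) (q' := q) (by omega) (by omega))
  rw [Subspace.dual_finrank_eq] at *
  omega

theorem PD_surj {p q p' q' : ℤ} (h : p + p' = n) (h' : q + q' = n) :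
    Function.Surjective (PD X p q p' q') :=
  (LinearMap.injective_iff_surjective_of_finrank_eq_finrank (PD_finrank h h')).mp (PD_inj h h')

/-- The radical of the form `∫ c ^ j x y` on `ker l ^ (j + 1)` is `Ir j`. -/
theorem radical {j : ℕ} {p q p' q' : ℤ} (h : p + p' + j = n) (h' : q + q' + j = n) {x : X.R}
    (hx : x ∈ X.H (p, q)) (hxK : x ∈ Kr X (j + 1))
    (hr : ∀ w ∈ X.H (p', q'), w ∈ Kr X (j + 1) → X.tr (X.l ^ j * x * w) = 0) : x ∈ Ir X j := by
  have hc : X.l ^ (j + 1) ∈ X.H (((j + 1 : ℕ) : ℤ), ((j + 1 : ℕ) : ℤ)) := X.pow_mem X.l_mem _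
  let f : X.H (p', q') →ₗ[ℂ] X.H (p' + ((j + 1 : ℕ) : ℤ), q' + ((j + 1 : ℕ) : ℤ)) :=
    { toFun := fun w => ⟨X.l ^ (j + 1) * (w : X.R), X.pow_mul_mem X.l_mem (j + 1) w.2⟩
      map_add' := fun x y => by ext; simp [mul_add]
      map_smul' := fun a x => by ext; simp }
  let g₀ : Dual ℂ (X.H (p', q')) :=
    { toFun := fun w => X.tr (X.l ^ j * x * (w : X.R))
      map_add' := fun y z => by simp [mul_add]
      map_smul' := fun r y => by simp }
  have hg₀ : g₀ ∈ (LinearMap.ker f).dualAnnihilator := by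
    rw [Submodule.mem_dualAnnihilator]
    intro w hw
    exact hr w w.2 (congrArg Subtype.val (LinearMap.mem_ker.mp hw))
  rw [← LinearMap.range_dualMap_eq_dualAnnihilator_ker] at hg₀
  obtain ⟨g, hg⟩ := hg₀
  obtain ⟨u, hu⟩ := PD_surj (X := X) (p := p - 1) (q := q - 1) (p' := p' + ((j + 1 : ℕ) : ℤ))
    (q' := q' + ((j + 1 : ℕ) : ℤ)) (by push_cast; omega) (by push_cast; omega) g
  have key : ∀ w ∈ X.H (p', q'), X.tr (X.l ^ j * x * w) = X.tr (X.l ^ (j + 1) * u * w) := by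
    intro w hw
    have h1 : g₀ ⟨w, hw⟩ = g (f ⟨w, hw⟩) := by
      rw [← hg]; rfl
    have h2 : g (f ⟨w, hw⟩) = X.tr ((u : X.R) * (X.l ^ (j + 1) * w)) := by
      rw [← hu]; rfl
    calc X.tr (X.l ^ j * x * w) = g₀ ⟨w, hw⟩ := rfl
      _ = X.tr ((u : X.R) * (X.l ^ (j + 1) * w)) := by rw [h1, h2]
      _ = _ := by rw [← mul_assoc, ← lpow]
  have hcx : X.l ^ j * x ∈ X.H (p + j, q + j) := X.pow_mul_mem X.l_mem j hx
  have hcu : X.l ^ (j + 1) * (u : X.R) ∈ X.H (p + j, q + j) := by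
    have := X.pow_mul_mem X.l_mem (j + 1) u.2
    have e : ((p - 1 + ((j + 1 : ℕ) : ℤ), q - 1 + ((j + 1 : ℕ) : ℤ)) : ℤ × ℤ) =
        (p + j, q + j) := by
      ext <;> push_cast <;> ring
    rwa [e] at this
  have hz : X.l ^ j * x - X.l ^ (j + 1) * u = 0 := by
    refine X.pd (p + j) (q + j) _ (Submodule.sub_mem _ hcx hcu) fun w hw => ?_
    have e1 : (n : ℤ) - (p + j) = p' := by omega
    have e2 : (n : ℤ) - (q + j) = q' := by omega
    rw [e1, e2] at hw
    rw [sub_mul, map_sub, key w hw, sub_self]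
  have hz' : X.l ^ j * x = X.l ^ (j + 1) * u := sub_eq_zero.mp hz
  refine mem_Ir.mpr ⟨x - X.l * u, u, ?_, ?_, by abel⟩
  · rw [mul_sub, ← mul_assoc, ← pow_succ, hz', sub_self]
  · rw [show j + 2 = (j + 1) + 1 from rfl, pow_succ', mul_assoc, ← hz', ← mul_assoc, ← pow_succ']
    exact hxK

/-! ### The form -/

/-- The real form `Re ⟨c ^ j x, bar y⟩ + Re ⟨c ^ j y, bar x⟩`. -/
noncomputable def bj (X : Fib n) (j : ℕ) (x y : X.R) : ℝ :=
  (X.mukai (X.l ^ j * x) (X.bar y)).re + (X.mukai (X.l ^ j * y) (X.bar x)).re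

theorem bj_symm (j : ℕ) (x y : X.R) : bj X j x y = bj X j y x := by
  unfold bj
  ring

theorem bj_add (j : ℕ) (x y z : X.R) : bj X j (x + y) z = bj X j x z + bj X j y z := by
  unfold bj
  rw [mul_add, X.mukai_add_left, map_add, X.mukai_add_right, Complex.add_re, Complex.add_re]
  ring

theorem bj_add_right (j : ℕ) (x y z : X.R) : bj X j x (y + z) = bj X j x y + bj X j x z := by
  rw [bj_symm, bj_add, bj_symm j y, bj_symm j z]

theorem bj_smul (j : ℕ) (r : ℝ) (x z : X.R) : bj X j ((r : ℂ) • x) z = r * bj X j x z := by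
  unfold bj
  rw [mul_smul_comm, X.mukai_smul_left, LinearMap.map_smulₛₗ, X.mukai_smul_right,
    Complex.conj_ofReal, Complex.re_ofReal_mul, Complex.re_ofReal_mul]
  ring

theorem mukai_add_l0 (y : X.R) : X.mukai 0 y = 0 := by
  have := X.mukai_smul_left 0 0 y
  simpa using this

theorem mukai_add_r0 (y : X.R) : X.mukai y 0 = 0 := by
  have := X.mukai_smul_right 0 y 0
  simpa using this

/-- The form `⟨l ^ j x, bar y⟩` is triangular. -/
theorem mukai_exact {j : ℕ} {p q p' q' : ℤ} {x y : X.R} (hx : x ∈ X.H (p, q))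
    (hy : y ∈ X.H (p', q')) (h : (n : ℤ) < p + j + q') :
    X.mukai (X.l ^ j * x) (X.bar y) = 0 :=
  X.mukai_zero (X.pow_mul_mem X.l_mem j hx) (X.bar_mem _ _ _ hy) h

/-- Extension to sums of subspaces. -/
theorem mukai_iSup {j : ℕ} (D E : ℤ → Submodule ℂ X.R)
    (h : ∀ k l, ∀ x ∈ D k, ∀ y ∈ E l, X.mukai (X.l ^ j * x) (X.bar y) = 0) {x y : X.R}
    (hx : x ∈ ⨆ k, D k) (hy : y ∈ ⨆ k, E k) : X.mukai (X.l ^ j * x) (X.bar y) = 0 := by
  refine Submodule.iSup_induction D (motive := fun x => X.mukai (X.l ^ j * x) (X.bar y) = 0) hx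
    (fun k x hx => ?_) ?_ ?_
  · refine Submodule.iSup_induction E (motive := fun y => X.mukai (X.l ^ j * x) (X.bar y) = 0) hy
      (fun l y hy => h k l x hx y hy) ?_ ?_
    · rw [map_zero, mukai_add_r0]
    · intro y z hy hz
      rw [map_add, X.mukai_add_right, hy, hz, add_zero]
  · rw [mul_zero, mukai_add_l0]
  · intro y z hy hz
    rw [mul_add, X.mukai_add_left, hy, hz, add_zero]

theorem bj_iSup {j : ℕ} (D E : ℤ → Submodule ℂ X.R)
    (h : ∀ k l, ∀ x ∈ D k, ∀ y ∈ E l, X.mukai (X.l ^ j * x) (X.bar y) = 0)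
    (h' : ∀ k l, ∀ x ∈ E k, ∀ y ∈ D l, X.mukai (X.l ^ j * x) (X.bar y) = 0) {x y : X.R}
    (hx : x ∈ ⨆ k, D k) (hy : y ∈ ⨆ k, E k) : bj X j x y = 0 := by
  unfold bj
  rw [mukai_iSup D E h hx hy, mukai_iSup E D h' hy hx]
  simp

/-- Elements of `Ir` are in the radical. -/
theorem mukai_rad_left {j : ℕ} {p q p' q' : ℤ} {x y : X.R} (hx : x ∈ X.H (p, q))
    (hxI : x ∈ Ir X j) (hy : y ∈ X.H (p', q')) (hyK : y ∈ Kr X (j + 1)) :
    X.mukai (X.l ^ j * x) (X.bar y) = 0 := by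
  have hcx : X.l ^ j * x ∈ X.H (p + j, q + j) := X.pow_mul_mem X.l_mem j hx
  rw [X.mukai_hom hcx (X.bar_mem _ _ _ hy), Finset.sum_eq_zero, mul_zero]
  intro m _
  rw [pair_left hxI (bar_Kr hyK), mul_zero, map_zero, mul_zero]

theorem mukai_rad_right {j : ℕ} {p q p' q' : ℤ} {x y : X.R} (hx : x ∈ X.H (p, q))
    (hxK : x ∈ Kr X (j + 1)) (hy : y ∈ X.H (p', q')) (hyI : y ∈ Ir X j) :
    X.mukai (X.l ^ j * x) (X.bar y) = 0 := by
  have hcx : X.l ^ j * x ∈ X.H (p + j, q + j) := X.pow_mul_mem X.l_mem j hx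
  rw [X.mukai_hom hcx (X.bar_mem _ _ _ hy), Finset.sum_eq_zero, mul_zero]
  intro m _
  rw [pair_right hxK (bar_Ir hyI), mul_zero, map_zero, mul_zero]

/-- The graded pieces of `ker l ^ (j + 1)`. -/
def KH (X : Fib n) (j : ℕ) (p q : ℤ) : Submodule ℂ X.R := Kr X (j + 1) ⊓ X.H (p, q)

/-- The graded pieces of `Ir j`. -/
def IH (X : Fib n) (j : ℕ) (p q : ℤ) : Submodule ℂ X.R := Ir X j ⊓ X.H (p, q)

theorem IH_le_KH (j : ℕ) (p q : ℤ) : IH X j p q ≤ KH X j p q := inf_le_inf (Ir_le j) le_rfl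

/-- The middle value of the form. -/
theorem mukai_mid {j : ℕ} {p q p' q' : ℤ} {x y : X.R} (hx : x ∈ X.H (p, q)) (hy : y ∈ X.H (p', q'))
    (h : p + j + q' = n) : X.mukai (X.l ^ j * x) (X.bar y) =
      Complex.I ^ (p + j + (q + j)) * X.tr (X.l ^ j * x * X.bar y) :=
  X.mukai_top (X.pow_mul_mem X.l_mem j hx) (X.bar_mem _ _ _ hy) h

theorem neg_one_zpow_cases (k : ℤ) : (-1 : ℂ) ^ k = 1 ∨ (-1 : ℂ) ^ k = -1 := by
  rcases Int.even_or_odd k with h | h
  · exact Or.inl (Even.neg_one_zpow h)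
  · exact Or.inr (Odd.neg_one_zpow h)

/-- Hermitian symmetry. -/
theorem mukai_herm {j : ℕ} {a b k : ℤ} (hab : a + b + j = n) {x y : X.R}
    (hx : x ∈ X.H (a + k, b + k)) (hy : y ∈ X.H (a - k, b - k)) :
    X.mukai (X.l ^ j * y) (X.bar x) = conj (X.mukai (X.l ^ j * x) (X.bar y)) := by
  have hbx := X.bar_mem _ _ _ hx
  have hby := X.bar_mem _ _ _ hy
  rw [mukai_mid hy hx (by omega), mukai_mid hx hy (by omega),
    RingHom.map_mul (starRingEnd ℂ), ← X.tr_bar, X.bar_mul, X.bar_bar, bar_lpow,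
    mul_assoc, mul_assoc, X.comm _ _ _ _ _ _ hbx hy, mul_smul_comm, LinearMap.map_smul,
    smul_eq_mul, I_zpow_conj]
  set t := X.tr (X.l ^ j * (y * X.bar x)) with ht
  have e1 : (a - k + j + (b - k + j) : ℤ) = (a + b + 2 * j) + (-2 * k) := by ring
  have e2 : (a + k + j + (b + k + j) : ℤ) = (a + b + 2 * j) + 2 * k := by ring
  rw [e1, e2]
  have hI : Complex.I ^ ((a + b + 2 * j) + 2 * k : ℤ) =
      Complex.I ^ ((a + b + 2 * j) + (-2 * k) : ℤ) := by
    rw [zpow_add₀ Complex.I_ne_zero (a + b + 2 * (j : ℤ)) (2 * k),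
      zpow_add₀ Complex.I_ne_zero (a + b + 2 * (j : ℤ)) (-2 * k)]
    congr 1
    rw [zpow_mul, zpow_mul]
    have h2 : (Complex.I : ℂ) ^ (2 : ℤ) = -1 := by
      rw [show (2 : ℤ) = ((2 : ℕ) : ℤ) from rfl, zpow_natCast, Complex.I_sq]
    have h3 : (Complex.I : ℂ) ^ (-2 : ℤ) = -1 := by
      rw [zpow_neg, h2]; norm_num
    rw [h2, h3]
  rw [hI]
  have s1 : (-1 : ℂ) ^ ((b + k + (a + k)) * (a - k + (b - k)) : ℤ) =
      (-1 : ℂ) ^ ((a + b + 2 * j) + 2 * k : ℤ) := by
    have hev : Even (((b + k + (a + k)) * (a - k + (b - k)) : ℤ) - ((a + b + 2 * j) + 2 * k)) := by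
      have : ((b + k + (a + k)) * (a - k + (b - k)) : ℤ) - ((a + b + 2 * j) + 2 * k)
          = (a + b) * ((a + b) - 1) - 2 * (2 * k * k + k + j) := by ring
      rw [this]
      refine Even.sub (Int.even_mul_pred_self _) ⟨2 * k * k + k + j, by ring⟩
    have h4 : (-1 : ℂ) ^ (((b + k + (a + k)) * (a - k + (b - k)) : ℤ) -
        ((a + b + 2 * j) + 2 * k)) = 1 := Even.neg_one_zpow hev
    rw [zpow_sub₀ (by norm_num)] at h4
    have h5 : (-1 : ℂ) ^ ((a + b + 2 * j) + 2 * k : ℤ) ≠ 0 := zpow_ne_zero _ (by norm_num)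
    field_simp at h4
    exact h4
  rw [s1]
  rcases neg_one_zpow_cases ((a + b + 2 * j) + 2 * k) with h | h <;> rw [h] <;> ring

/-- The form is nondegenerate modulo `Ir`. -/
theorem nondeg {j : ℕ} {a b : ℤ} (hab : a + b + j = n) {x : X.R}
    (hx : x ∈ ⨆ k : ℤ, KH X j (a + k) (b + k))
    (h : ∀ y ∈ ⨆ k : ℤ, KH X j (a + k) (b + k), bj X j x y = 0) :
    x ∈ ⨆ k : ℤ, IH X j (a + k) (b + k) := by
  classical
  rw [Submodule.mem_iSup_iff_exists_finsupp] at hx
  obtain ⟨f, hf, hfx⟩ := hx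
  have key : ∀ k, f k ∈ Ir X j := by
    by_contra hcon
    push Not at hcon
    obtain ⟨k₁, hk₁⟩ := hcon
    let s : Finset ℤ := f.support.filter fun k => f k ∉ Ir X j
    have hk₁s : k₁ ∈ s := by
      rw [Finset.mem_filter]
      refine ⟨?_, hk₁⟩
      rw [Finsupp.mem_support_iff]
      rintro h0
      exact hk₁ (by rw [h0]; exact Submodule.zero_mem _)
    have hs : s.Nonempty := ⟨k₁, hk₁s⟩
    set k := s.min' hs with hk
    have hks : k ∈ s := Finset.min'_mem _ _
    have hlt : ∀ i, i < k → f i ∈ Ir X j := by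
      intro i hi
      by_contra hi2
      have his : i ∈ s := by
        rw [Finset.mem_filter]
        refine ⟨?_, hi2⟩
        rw [Finsupp.mem_support_iff]
        rintro h0
        exact hi2 (by rw [h0]; exact Submodule.zero_mem _)
      exact absurd (Finset.min'_le s i his) (not_le.mpr hi)
    refine (Finset.mem_filter.mp hks).2 ?_
    refine radical (p' := b - k) (q' := a - k) (by omega) (by omega) (hf k).2 (hf k).1 ?_
    intro w hw hwK
    have hbw : X.bar w ∈ X.H (a - k, b - k) := X.bar_mem _ _ _ hw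
    have hbK : X.bar w ∈ Kr X (j + 1) := bar_Kr hwK
    set τ := X.mukai (X.l ^ j * f k) w with hτ
    have hy : τ • X.bar w ∈ X.H (a - k, b - k) := Submodule.smul_mem _ _ hbw
    have hyK : τ • X.bar w ∈ Kr X (j + 1) := Submodule.smul_mem _ _ hbK
    have hyT : τ • X.bar w ∈ ⨆ k : ℤ, KH X j (a + k) (b + k) := by
      refine Submodule.mem_iSup_of_mem (-k) ⟨hyK, ?_⟩
      simpa [sub_eq_add_neg] using hy
    have hb := h _ hyT
    have hother : ∀ i, i ≠ k → bj X j (f i) (τ • X.bar w) = 0 := by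
      intro i hi
      unfold bj
      rcases lt_or_gt_of_ne hi with hi | hi
      · rw [mukai_rad_left (hf i).2 (hlt i hi) hy hyK, mukai_rad_right hy hyK (hf i).2 (hlt i hi)]
        simp
      · rw [mukai_exact (hf i).2 hy (by omega), mukai_exact hy (hf i).2 (by omega)]
        simp
    have hsum : bj X j x (τ • X.bar w) = bj X j (f k) (τ • X.bar w) := by
      have hlin : ∀ (t : Finset ℤ), bj X j (∑ i ∈ t, f i) (τ • X.bar w) =
          ∑ i ∈ t, bj X j (f i) (τ • X.bar w) := by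
        intro t
        induction t using Finset.induction_on with
        | empty =>
          have := bj_smul (X := X) j 0 0 (τ • X.bar w)
          simpa using this
        | insert i t hi ih => rw [Finset.sum_insert hi, Finset.sum_insert hi, bj_add, ih]
      rw [← hfx, Finsupp.sum, hlin]
      rw [Finset.sum_eq_single k (fun i _ hi => hother i hi)
        (fun h => absurd (Finset.mem_filter.mp hks).1 h)]
    rw [hsum] at hb
    unfold bj at hb
    rw [mukai_herm hab (hf k).2 hy] at hb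
    have hmz : X.mukai (X.l ^ j * f k) (X.bar (τ • X.bar w)) = conj τ * τ := by
      rw [LinearMap.map_smulₛₗ, X.bar_bar, X.mukai_smul_right]
    rw [hmz] at hb
    have e3 : conj τ * τ = ((Complex.normSq τ : ℝ) : ℂ) := Complex.normSq_eq_conj_mul_self.symm
    rw [e3] at hb
    simp only [Complex.conj_ofReal, Complex.ofReal_re] at hb
    have hτ0 : τ = 0 := by
      rw [← Complex.normSq_eq_zero]
      linarith
    rw [hτ] at hτ0
    have hcx : X.l ^ j * f k ∈ X.H (a + k + j, b + k + j) := X.pow_mul_mem X.l_mem j (hf k).2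
    rw [X.mukai_top hcx hw (by omega)] at hτ0
    exact (mul_eq_zero.mp hτ0).resolve_left (zpow_ne_zero _ Complex.I_ne_zero)
  rw [← hfx, Finsupp.sum]
  exact Submodule.sum_mem _ fun k _ => Submodule.mem_iSup_of_mem k ⟨key k, (hf k).2⟩

end Pool.Agent.X268.DH
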