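import Pool.Agent.X268.DH.Lin

open scoped ComplexConjugate
open Module

namespace Pool.Agent.X268.DH

open Pool.Agent.W539.DI

variable {n : ℕ} {X : Fib n}

theorem mult_eq (j : ℕ) (p q : ℤ) : mult X j p q =
    (finrank ℂ (KH X j p q) : ℤ) - finrank ℂ (IH X j p q) := rfl

theorem ω_KH {j : ℕ} {p q : ℤ} (s : ℕ) {x : X.R} (hx : x ∈ KH X j p q) :
    X.ω ^ s * x ∈ KH X j (p + s) (q + s) :=
  ⟨mul_Kr hx.1 _, X.pow_mul_mem X.ω_mem s hx.2⟩

theorem ω_IH {j : ℕ} {p q : ℤ} (s : ℕ) {x : X.R} (hx : x ∈ IH X j p q) :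
    X.ω ^ s * x ∈ IH X j (p + s) (q + s) :=
  ⟨mul_Ir hx.1 _, X.pow_mul_mem X.ω_mem s hx.2⟩

/-- Symmetry of the multiplicities. -/
theorem mult_symm (hP : RelPol X) {j s : ℕ} {p q : ℤ} (h : p + q + s + j = n) :
    mult X j p q = mult X j (p + s) (q + s) := by
  have := quot_dim (LinearMap.mulLeft ℂ (X.ω ^ s)) (KH X j p q) (IH X j p q)
    (KH X j (p + s) (q + s)) (IH X j (p + s) (q + s)) (IH_le_KH _ _ _) (IH_le_KH _ _ _)
    (fun x hx => ω_KH s hx)
    (fun x hx => ⟨fun h1 => ⟨hP.hl_inj j s p q h x hx h1.1, hx.2⟩, fun h1 => ω_IH s h1⟩)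
    (fun y hy => by
      obtain ⟨x, hx, hd⟩ := hP.hl_surj j s p q h y hy
      exact ⟨x, hx, hd, Submodule.sub_mem _ hy.2 (ω_KH s hx).2⟩)
  rw [mult_eq, mult_eq]
  omega

/-- The Hodge-Riemann form on `ker l ^ (j + 1)`. -/
noncomputable def SS (X : Fib n) (j : ℕ) (p q : ℤ) (s : ℕ) (x y : X.R) : ℂ :=
  X.S p q s (X.l ^ j * x) y

theorem SS_mul (j : ℕ) (p q : ℤ) (s : ℕ) (u v : X.R) :
    SS X j p q s (X.ω * u) (X.ω * v) = - SS X j (p - 1) (q - 1) (s + 2) u v := by
  unfold SS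
  rw [show X.l ^ j * (X.ω * u) = X.ω * (X.l ^ j * u) by
    rw [← mul_assoc, lpow, mul_assoc], X.S_mul]

theorem SS_add (j : ℕ) (p q : ℤ) (s : ℕ) (x y z : X.R) :
    SS X j p q s (x + y) z = SS X j p q s x z + SS X j p q s y z := by
  unfold SS
  rw [mul_add, X.S_add]

theorem SS_add_right (j : ℕ) (p q : ℤ) (s : ℕ) (x y z : X.R) :
    SS X j p q s x (y + z) = SS X j p q s x y + SS X j p q s x z := by
  unfold SS
  rw [X.S_add_right]

theorem SS_left (j : ℕ) (p q : ℤ) (s : ℕ) (u v : X.R) (hu : X.ω ^ (s + 1) * u ∈ Ir X j)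
    (hv : v ∈ Kr X (j + 1)) : SS X j p q s u (X.ω * v) = 0 := by
  unfold SS KRing.S
  have e1 : X.ω ^ s * (X.l ^ j * u * X.bar (X.ω * v)) =
      X.l ^ j * (X.ω ^ (s + 1) * u) * X.bar v := by
    rw [X.bar_mul, X.ω_bar]
    have h1 : X.l ^ j * u * (X.ω * X.bar v) = X.ω * (X.l ^ j * u * X.bar v) := by
      rw [← mul_assoc, ← X.central X.ω_mem, mul_assoc]
    rw [h1, ← mul_assoc, ← pow_succ, ← mul_assoc, ← mul_assoc (X.ω ^ (s + 1)), ← lpow,
      mul_assoc (X.l ^ j)]
  rw [e1, pair_left hu (bar_Kr hv)]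
  simp

theorem SS_right (j : ℕ) (p q : ℤ) (s : ℕ) (u v : X.R) (hu : X.ω ^ (s + 1) * u ∈ Ir X j)
    (hv : v ∈ Kr X (j + 1)) : SS X j p q s (X.ω * v) u = 0 := by
  unfold SS KRing.S
  have e1 : X.ω ^ s * (X.l ^ j * (X.ω * v) * X.bar u) =
      X.l ^ j * v * X.bar (X.ω ^ (s + 1) * u) := by
    rw [X.bar_pow, ← mul_assoc (X.l ^ j * v), ← X.pow_central, pow_succ]
    have h1 : X.l ^ j * (X.ω * v) = X.ω * (X.l ^ j * v) := by
      rw [← mul_assoc, lpow, mul_assoc]
    rw [h1]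
    simp only [mul_assoc]
  rw [e1, pair_right hv (bar_Ir hu)]
  simp

/-- The form vanishes on `Ir`. -/
theorem SS_Ir (j : ℕ) (p q : ℤ) (s : ℕ) (u v : X.R) (hu : u ∈ Ir X j)
    (hv : v ∈ Kr X (j + 1)) : SS X j p q s u v = 0 := by
  unfold SS KRing.S
  rw [pair_left hu (bar_Kr hv)]
  simp

/-- Alternating sums of multiplicities. -/
noncomputable def AA (X : Fib n) (j : ℕ) : ℕ → ℤ → ℤ → ℤ
  | 0, _, _ => 0
  | r + 1, p, q => mult X j p q - AA X j r (p - 1) (q - 1)

theorem mult_van (j : ℕ) {p q : ℤ} (h : X.H (p, q) = ⊥) : mult X j p q = 0 := by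
  have h1 : KH X j p q = ⊥ := by unfold KH; rw [h, inf_bot_eq]
  have h2 : IH X j p q = ⊥ := by unfold IH; rw [h, inf_bot_eq]
  rw [mult_eq, h1, h2, sub_self]

/-- Definite decomposition. -/
theorem definite (hP : RelPol X) (j : ℕ) : ∀ (r : ℕ) (p q : ℤ) (s : ℕ),
    p + q + s + j = n → p < r →
    ∃ M₁ M₂ : Submodule ℂ X.R, M₁ ≤ KH X j p q ∧ M₂ ≤ KH X j p q ∧
      (∀ x ∈ M₁, x ≠ 0 → 0 < (SS X j p q s x x).re) ∧
      (∀ x ∈ M₂, x ≠ 0 → (SS X j p q s x x).re < 0) ∧
      (finrank ℂ M₁ + finrank ℂ M₂ : ℤ) = mult X j p q ∧ (finrank ℂ M₁ : ℤ) = AA X j r p q := by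
  intro r
  induction r with
  | zero =>
    intro p q s _ hp
    have hb : X.H (p, q) = ⊥ := X.van p q (Or.inl (by simpa using hp))
    refine ⟨⊥, ⊥, bot_le, bot_le, ?_, ?_, ?_, ?_⟩
    · intro x hx h0
      exact absurd ((Submodule.mem_bot ℂ).mp hx) h0
    · intro x hx h0
      exact absurd ((Submodule.mem_bot ℂ).mp hx) h0
    · rw [mult_van j hb]
      simp
    · simp [AA]
  | succ r ih =>
    intro p q s hs hp
    obtain ⟨N₁, N₂, hN₁, hN₂, pos, neg, hsum, hA⟩ :=
      ih (p - 1) (q - 1) (s + 2) (by push_cast; omega) (by push_cast at hp; omega)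
    have hs2 : (p - 1 : ℤ) + (q - 1) + ((s + 2 : ℕ) : ℤ) + j = n := by push_cast; omega
    have hpow : ∀ x : X.R, X.ω ^ (s + 2) * x = X.ω ^ (s + 1) * (X.ω * x) := by
      intro x
      rw [show s + 2 = (s + 1) + 1 from rfl, pow_succ, mul_assoc]
    have hKmem : ∀ x ∈ KH X j (p - 1) (q - 1), X.ω * x ∈ KH X j p q := by
      intro x hx
      have := ω_KH 1 hx
      rw [pow_one] at this
      have e1 : p - 1 + ((1 : ℕ) : ℤ) = p := by push_cast; ring
      have e2 : q - 1 + ((1 : ℕ) : ℤ) = q := by push_cast; ring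
      rwa [e1, e2] at this
    -- the primitive classes
    let P : Submodule ℂ X.R := KH X j p q ⊓ (Ir X j).comap (LinearMap.mulLeft ℂ (X.ω ^ (s + 1)))
    have hP1 : ∀ x, x ∈ P ↔ x ∈ KH X j p q ∧ X.ω ^ (s + 1) * x ∈ Ir X j := fun x => Iff.rfl
    have hIP : IH X j p q ≤ P := fun x hx => ⟨IH_le_KH _ _ _ hx, mul_Ir hx.1 _⟩
    have hprim : ∀ x ∈ KH X j (p - 1) (q - 1), X.ω * x ∈ P → x ∈ Ir X j := by
      intro x hx hx2
      refine hP.hl_inj j (s + 2) (p - 1) (q - 1) hs2 x hx ?_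
      rw [hpow]
      exact ((hP1 _).mp hx2).2
    have hdimP : finrank ℂ (KH X j (p - 1) (q - 1)) + finrank ℂ P =
        finrank ℂ (KH X j p q) + finrank ℂ (IH X j (p - 1) (q - 1)) := by
      refine quot_dim (LinearMap.mulLeft ℂ X.ω) _ _ _ _ (IH_le_KH _ _ _) inf_le_left
        hKmem (fun x hx => ⟨fun h => ⟨hprim x hx h, hx.2⟩, fun h => ?_⟩) (fun y hy => ?_)
      · refine hIP ⟨mul_Ir h.1 _, (hKmem x hx).2⟩
      · have h1 : X.ω ^ (s + 1) * y ∈
            KH X j (p - 1 + ((s + 2 : ℕ) : ℤ)) (q - 1 + ((s + 2 : ℕ) : ℤ)) := by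
          have := ω_KH (s + 1) hy
          have e1 : p + ((s + 1 : ℕ) : ℤ) = p - 1 + ((s + 2 : ℕ) : ℤ) := by push_cast; ring
          have e2 : q + ((s + 1 : ℕ) : ℤ) = q - 1 + ((s + 2 : ℕ) : ℤ) := by push_cast; ring
          rwa [e1, e2] at this
        obtain ⟨x, hx, hd⟩ := hP.hl_surj j (s + 2) (p - 1) (q - 1) hs2 _ h1
        refine ⟨x, hx, ?_⟩
        rw [hP1]
        refine ⟨Submodule.sub_mem _ hy (hKmem x hx), ?_⟩
        show X.ω ^ (s + 1) * (y - X.ω * x) ∈ Ir X j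
        rw [mul_sub, ← hpow]
        exact hd
    -- a complement of `IH` in `P`
    obtain ⟨C, hC⟩ := Submodule.exists_isCompl (IH X j p q)
    let P' : Submodule ℂ X.R := P ⊓ C
    have hP'sup : IH X j p q ⊔ P' = P := by
      have h1 : IH X j p q ⊔ P ⊓ C = P := by
        rw [inf_comm, ← sup_inf_assoc_of_le C hIP, hC.sup_eq_top, top_inf_eq]
      exact h1
    have hP'dis : IH X j p q ⊓ P' = ⊥ := by
      rw [eq_bot_iff]
      rintro x ⟨hx1, hx2⟩
      have : x ∈ IH X j p q ⊓ C := ⟨hx1, hx2.2⟩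
      rw [hC.inf_eq_bot] at this
      exact this
    have hdimP' : finrank ℂ (IH X j p q) + finrank ℂ P' = finrank ℂ P := by
      have := Submodule.finrank_sup_add_finrank_inf_eq (IH X j p q) P'
      rw [hP'sup, hP'dis, finrank_bot, add_zero] at this
      exact this.symm
    have hP'pos : ∀ u ∈ P', u ≠ 0 → 0 < (SS X j p q s u u).re := by
      intro u hu hu0
      have hu1 := (hP1 u).mp hu.1
      have hu2 : u ∉ Ir X j := by
        intro h
        have : u ∈ IH X j p q ⊓ P' := ⟨⟨h, hu1.1.2⟩, hu⟩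
        rw [hP'dis] at this
        exact hu0 ((Submodule.mem_bot ℂ).mp this)
      obtain ⟨t, ht, he⟩ := hP.hr j s p q hs u hu1.1 hu2 hu1.2
      unfold SS KRing.S
      rw [he]
      simpa using ht
    -- definite subspaces meet `Ir` trivially
    have hN₁I : ∀ x ∈ N₁, x ∈ Ir X j → x = 0 := by
      intro x hx hI
      by_contra h0
      have := pos x hx h0
      rw [SS_Ir j _ _ _ x x hI (hN₁ hx).1] at this
      simp at this
    have hN₂I : ∀ x ∈ N₂, x ∈ Ir X j → x = 0 := by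
      intro x hx hI
      by_contra h0
      have := neg x hx h0
      rw [SS_Ir j _ _ _ x x hI (hN₂ hx).1] at this
      simp at this
    let L : Submodule ℂ X.R → Submodule ℂ X.R := fun N => Submodule.map (LinearMap.mulLeft ℂ X.ω) N
    have hL : ∀ N, N ≤ KH X j (p - 1) (q - 1) → (∀ x ∈ N, x ∈ Ir X j → x = 0) →
        finrank ℂ (L N) = finrank ℂ N := by
      intro N hN hNI
      refine finrank_map_of_inj _ _ fun x hx h0 => hNI x hx ?_
      refine hprim x (hN hx) ?_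
      have : X.ω * x = 0 := h0
      rw [this]
      exact P.zero_mem
    have hdis : P' ⊓ L N₂ = ⊥ := by
      rw [eq_bot_iff]
      rintro y ⟨hy1, x, hx, rfl⟩
      have := hN₂I x hx (hprim x (hN₂ hx) hy1.1)
      rw [this]
      simp
    have hdimM : finrank ℂ (P' ⊔ L N₂ : Submodule ℂ X.R) = finrank ℂ P' + finrank ℂ N₂ := by
      have h1 := Submodule.finrank_sup_add_finrank_inf_eq P' (L N₂)
      rw [hdis, finrank_bot, add_zero, hL _ hN₂ hN₂I] at h1
      exact h1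
    have hdimL : finrank ℂ (L N₁) = finrank ℂ N₁ := hL _ hN₁ hN₁I
    have hLle : ∀ N, N ≤ KH X j (p - 1) (q - 1) → L N ≤ KH X j p q := by
      rintro N hN _ ⟨x, hx, rfl⟩
      exact hKmem x (hN hx)
    refine ⟨P' ⊔ L N₂, L N₁, sup_le (inf_le_left.trans inf_le_left) (hLle _ hN₂), hLle _ hN₁,
      ?_, ?_, ?_, ?_⟩
    · intro x hx hx0
      rw [Submodule.mem_sup] at hx
      obtain ⟨u, hu, _, ⟨v, hv, rfl⟩, rfl⟩ := hx
      have hu2 := ((hP1 u).mp hu.1).2
      have hvK := (hN₂ hv).1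
      simp only [LinearMap.mulLeft_apply] at hx0 ⊢
      have e : SS X j p q s (u + X.ω * v) (u + X.ω * v) =
          SS X j p q s u u - SS X j (p - 1) (q - 1) (s + 2) v v := by
        rw [SS_add, SS_add_right, SS_add_right, SS_left j p q s u v hu2 hvK,
          SS_right j p q s u v hu2 hvK, SS_mul]
        ring
      rw [e, Complex.sub_re]
      have hupos := hP'pos u hu
      have hvneg := neg v hv
      by_cases hu0 : u = 0
      · have hv0 : v ≠ 0 := by
          rintro rfl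
          apply hx0
          rw [hu0]
          simp
        have := hvneg hv0
        have z : (SS X j p q s u u).re = 0 := by
          rw [hu0]
          unfold SS KRing.S
          simp
        rw [z]
        linarith
      · by_cases hv0 : v = 0
        · have z : (SS X j (p - 1) (q - 1) (s + 2) v v).re = 0 := by
            rw [hv0]
            unfold SS KRing.S
            simp
          rw [z]
          have := hupos hu0
          linarith
        · have := hupos hu0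
          have := hvneg hv0
          linarith
    · rintro x ⟨v, hv, rfl⟩ hx0
      simp only [LinearMap.mulLeft_apply] at hx0 ⊢
      rw [SS_mul, Complex.neg_re]
      have hv0 : v ≠ 0 := by
        rintro rfl
        exact hx0 (by simp)
      have := pos v hv hv0
      linarith
    · rw [hdimM, hdimL]
      rw [mult_eq] at hsum ⊢
      push_cast
      omega
    · have hA' : AA X j (r + 1) p q = mult X j p q - AA X j r (p - 1) (q - 1) := rfl
      rw [hdimM, hA', ← hA]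
      rw [mult_eq] at hsum ⊢
      push_cast
      omega

end Pool.Agent.X268.DH
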