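import Pool.Agent.X268.DH.Form

open scoped ComplexConjugate
open Module

namespace Pool.Agent.X268.DH

open Pool.Agent.W539.DI

/-- A symmetric real bilinear form, possibly degenerate. -/
theorem semi_real_deg {V : Type*} [AddCommGroup V] [Module ℝ V] [FiniteDimensional ℝ V]
    (B : LinearMap.BilinForm ℝ V) (hs : B.IsSymm) (Q : Submodule ℝ V)
    (hQ : ∀ x, (∀ y, B x y = 0) → x ∈ Q)
    (W₁ W₂ : Submodule ℝ V) (h₁ : ∀ x ∈ W₁, 0 ≤ B x x) (h₂ : ∀ x ∈ W₂, B x x ≤ 0) :
    finrank ℝ W₁ + finrank ℝ W₂ ≤ finrank ℝ V + finrank ℝ Q := by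
  have key : ∀ (W : Submodule ℝ V) (s : ℝ), (∀ x ∈ W, 0 ≤ s * B x x) → s ≠ 0 →
      ∀ z ∈ W, B z z = 0 → ∀ w ∈ W, B z w = 0 := by
    intro W s hW hs0 z hz hzz w hw
    by_contra hne
    have hsym : B w z = B z w := (hs.eq z w).symm
    have hval : ∀ t : ℝ, 0 ≤ s * (B w w + 2 * t * B z w) := by
      intro t
      have := hW (w + t • z) (W.add_mem hw (W.smul_mem t hz))
      have e : B (w + t • z) (w + t • z) = B w w + 2 * t * B z w := by
        simp only [map_add, map_smul, LinearMap.add_apply, LinearMap.smul_apply, smul_eq_mul,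
          hzz, hsym]
        ring
      rw [e] at this
      exact this
    have hsb : s * B z w ≠ 0 := mul_ne_zero hs0 hne
    have := hval (-(s * B w w + 1) / (2 * (s * B z w)))
    have e2 : s * (B w w + 2 * (-(s * B w w + 1) / (2 * (s * B z w))) * B z w) = -1 := by
      field_simp
      ring
    rw [e2] at this
    linarith
  have hZ : ∀ z ∈ W₁ ⊓ W₂, B z z = 0 := fun z hz =>
    le_antisymm (h₂ z hz.2) (h₁ z hz.1)
  have hle : W₁ ⊔ W₂ ≤ B.orthogonal (W₁ ⊓ W₂) := by
    refine sup_le ?_ ?_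
    · intro w hw z hz
      exact key W₁ 1 (by simpa using h₁) one_ne_zero z hz.1 (hZ z hz) w hw
    · intro w hw z hz
      refine key W₂ (-1) (fun x hx => ?_) (by norm_num) z hz.2 (hZ z hz) w hw
      have := h₂ x hx
      linarith
  have h3 := Submodule.finrank_mono hle
  have h4 := LinearMap.BilinForm.finrank_add_finrank_orthogonal (B := B) hs.isRefl (W₁ ⊓ W₂)
  have h5 := Submodule.finrank_sup_add_finrank_inf_eq W₁ W₂
  have h6 : finrank ℝ ((W₁ ⊓ W₂) ⊓ B.orthogonal ⊤ : Submodule ℝ V) ≤ finrank ℝ Q := by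
    refine Submodule.finrank_mono ?_
    rintro x ⟨_, hx⟩
    refine hQ x fun y => ?_
    have := hx y Submodule.mem_top
    rw [← hs.eq y x] at *
    exact this
  omega

/-- The same for a real valued form on a subspace `T` of a complex vector space. -/
theorem semi_deg {R : Type*} [AddCommGroup R] [Module ℂ R] [FiniteDimensional ℂ R]
    (T Q W₁ W₂ : Submodule ℂ R) (hQT : Q ≤ T) (hW₁ : W₁ ≤ T) (hW₂ : W₂ ≤ T) (β : R → R → ℝ)
    (hadd : ∀ x y z, β (x + y) z = β x z + β y z)
    (hsmul : ∀ (r : ℝ) x z, β ((r : ℂ) • x) z = r * β x z)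
    (hsymm : ∀ x y, β x y = β y x)
    (hnd : ∀ x ∈ T, (∀ y ∈ T, β x y = 0) → x ∈ Q)
    (h₁ : ∀ x ∈ W₁, 0 ≤ β x x) (h₂ : ∀ x ∈ W₂, β x x ≤ 0) :
    finrank ℂ W₁ + finrank ℂ W₂ ≤ finrank ℂ T + finrank ℂ Q := by
  let B : LinearMap.BilinForm ℝ T := LinearMap.mk₂ ℝ (fun x y => β (x : R) (y : R))
    (fun x y z => hadd x y z)
    (fun r x z => by
      have := hsmul r (x : R) (z : R)
      simpa [Complex.coe_smul] using this)
    (fun x y z => by
      show β (x : R) ((y : R) + (z : R)) = _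
      rw [hsymm, hadd, hsymm, hsymm (z : R)])
    (fun r x z => by
      have := hsmul r (z : R) (x : R)
      rw [hsymm, hsymm (x : R)]
      simpa [Complex.coe_smul] using this)
  have hB : ∀ x y, B x y = β (x : R) (y : R) := fun x y => rfl
  have hs : B.IsSymm := ⟨fun x y => by simp only [hB]; exact hsymm _ _⟩
  let V₁ : Submodule ℝ T := (Submodule.comap T.subtype W₁).restrictScalars ℝ
  let V₂ : Submodule ℝ T := (Submodule.comap T.subtype W₂).restrictScalars ℝ
  let Q' : Submodule ℝ T := (Submodule.comap T.subtype Q).restrictScalars ℝ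
  have := semi_real_deg B hs Q' (fun x hx => hnd (x : R) x.2 (fun y hy => hx ⟨y, hy⟩))
    V₁ V₂ (fun x hx => h₁ _ hx) (fun x hx => h₂ _ hx)
  have e : ∀ (W : Submodule ℂ R), W ≤ T →
      finrank ℝ ((Submodule.comap T.subtype W).restrictScalars ℝ : Submodule ℝ T) =
        2 * finrank ℂ W := by
    intro W hW
    have a : finrank ℝ ((Submodule.comap T.subtype W).restrictScalars ℝ : Submodule ℝ T) =
      finrank ℝ (Submodule.comap T.subtype W) := rfl
    rw [a, finrank_real_of_complex]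
    congr 1
    exact (Submodule.comapSubtypeEquivOfLe hW).finrank_eq
  rw [e W₁ hW₁, e W₂ hW₂, e Q hQT, finrank_real_of_complex] at this
  omega

/-- Comparison of the dimensions of two quotients `A / B` and `C / D` by a map inducing an
isomorphism. -/
theorem quot_dim {R : Type*} [AddCommGroup R] [Module ℂ R] [FiniteDimensional ℂ R] (f : R →ₗ[ℂ] R)
    (A B C D : Submodule ℂ R) (hBA : B ≤ A) (hDC : D ≤ C) (h1 : ∀ x ∈ A, f x ∈ C)
    (h2 : ∀ x ∈ A, f x ∈ D ↔ x ∈ B) (h3 : ∀ y ∈ C, ∃ x ∈ A, y - f x ∈ D) :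
    finrank ℂ A + finrank ℂ D = finrank ℂ C + finrank ℂ B := by
  let g : (A × D) →ₗ[ℂ] C :=
    { toFun := fun z => ⟨f z.1 + z.2, C.add_mem (h1 _ z.1.2) (hDC z.2.2)⟩
      map_add' := fun x y => by ext; simp; abel
      map_smul' := fun r x => by ext; simp }
  have hg : Function.Surjective g := by
    intro y
    obtain ⟨x, hx, hd⟩ := h3 y y.2
    refine ⟨(⟨x, hx⟩, ⟨_, hd⟩), ?_⟩
    ext
    simp [g]
  let e : B →ₗ[ℂ] (LinearMap.ker g) :=
    { toFun := fun x => ⟨(⟨x, hBA x.2⟩, ⟨-f x, D.neg_mem ((h2 x (hBA x.2)).mpr x.2)⟩), by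
        rw [LinearMap.mem_ker]; ext; simp [g]⟩
      map_add' := fun x y => by
        ext
        · simp
        · simp; abel
      map_smul' := fun r x => by ext <;> simp }
  have he : Function.Bijective e := by
    constructor
    · intro x y hxy
      have := congrArg (fun z : LinearMap.ker g => ((z : A × D).1 : R)) hxy
      exact Subtype.ext this
    · rintro ⟨⟨x, d⟩, hz⟩
      rw [LinearMap.mem_ker] at hz
      have hz' : f x + d = 0 := congrArg Subtype.val hz
      have hd : (d : R) = -f x := (neg_eq_of_add_eq_zero_right hz').symm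
      have hx : (x : R) ∈ B := by
        rw [← h2 x x.2]
        have : f x = -(d : R) := by rw [hd, neg_neg]
        rw [this]
        exact D.neg_mem d.2
      refine ⟨⟨x, hx⟩, ?_⟩
      ext
      · rfl
      · exact hd.symm
  have h4 := LinearMap.finrank_range_add_finrank_ker g
  rw [LinearMap.range_eq_top.mpr hg, finrank_top, finrank_prod,
    ← (LinearEquiv.ofBijective e he).finrank_eq] at h4
  omega

end Pool.Agent.X268.DH
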