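import Pool.Agent.X268.DH.HR

open scoped ComplexConjugate
open Module

namespace Pool.Agent.X268.DH

open Pool.Agent.W539.DI

variable {n : ℕ} {X Y : Fib n}

/-- The part of `ker l ^ (j + 1)` of type `p - q = a - b`. -/
def TT (X : Fib n) (j : ℕ) (a b : ℤ) : Submodule ℂ X.R := ⨆ k : ℤ, KH X j (a + k) (b + k)

/-- The part of `Ir j` of type `p - q = a - b`. -/
def QQ (X : Fib n) (j : ℕ) (a b : ℤ) : Submodule ℂ X.R := ⨆ k : ℤ, IH X j (a + k) (b + k)

theorem TT_eq (X : Fib n) (j : ℕ) (a b : ℤ) :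
    TT X j a b = Kr X (j + 1) ⊓ ⨆ k : ℤ, X.H (a + k, b + k) :=
  ((homog_Kr (X := X) (j + 1)).inf a b).symm

theorem QQ_eq (X : Fib n) (j : ℕ) (a b : ℤ) :
    QQ X j a b = Ir X j ⊓ ⨆ k : ℤ, X.H (a + k, b + k) :=
  ((homog_Ir (X := X) j).inf a b).symm

theorem QQ_le (X : Fib n) (j : ℕ) (a b : ℤ) : QQ X j a b ≤ TT X j a b :=
  iSup_mono fun _ => IH_le_KH _ _ _

theorem sfm_lpow (Φ : SFM X Y) (m : ℕ) (x : X.R) : Φ.φ (X.l ^ m * x) = Y.l ^ m * Φ.φ x := by
  induction m with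
  | zero => simp
  | succ m ih => rw [pow_succ', mul_assoc, Φ.lin, ih, pow_succ', mul_assoc]

theorem sfm_Kr (Φ : SFM X Y) (m : ℕ) :
    Submodule.map (Φ.φ : X.R →ₗ[ℂ] Y.R) (Kr X m) = Kr Y m := by
  ext y
  constructor
  · rintro ⟨x, hx, rfl⟩
    have hx' : X.l ^ m * x = 0 := hx
    rw [mem_Kr]
    show Y.l ^ m * Φ.φ x = 0
    rw [← sfm_lpow, hx', map_zero]
  · intro hy
    refine ⟨Φ.φ.symm y, ?_, by simp⟩
    show X.l ^ m * Φ.φ.symm y = 0
    apply Φ.φ.injective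
    rw [sfm_lpow, map_zero, LinearEquiv.apply_symm_apply]
    exact hy

theorem sfm_Ir (Φ : SFM X Y) (j : ℕ) :
    Submodule.map (Φ.φ : X.R →ₗ[ℂ] Y.R) (Ir X j) = Ir Y j := by
  unfold Ir
  rw [Submodule.map_sup, sfm_Kr, ← sfm_Kr Φ (j + 2), ← Submodule.map_comp, ← Submodule.map_comp]
  congr 2
  ext x
  exact Φ.lin x

theorem sfm_TT (Φ : SFM X Y) (j : ℕ) (a b : ℤ) :
    Submodule.map (Φ.φ : X.R →ₗ[ℂ] Y.R) (TT X j a b) = TT Y j a b := by
  rw [TT_eq, TT_eq, Submodule.map_inf _ Φ.φ.injective, sfm_Kr, Φ.hodge]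

theorem sfm_QQ (Φ : SFM X Y) (j : ℕ) (a b : ℤ) :
    Submodule.map (Φ.φ : X.R →ₗ[ℂ] Y.R) (QQ X j a b) = QQ Y j a b := by
  rw [QQ_eq, QQ_eq, Submodule.map_inf _ Φ.φ.injective, sfm_Ir, Φ.hodge]

theorem sfm_TT_finrank (Φ : SFM X Y) (j : ℕ) (a b : ℤ) :
    finrank ℂ (TT X j a b) = finrank ℂ (TT Y j a b) := by
  rw [← sfm_TT Φ]
  exact (LinearEquiv.finrank_map_eq Φ.φ _).symm

theorem sfm_QQ_finrank (Φ : SFM X Y) (j : ℕ) (a b : ℤ) :
    finrank ℂ (QQ X j a b) = finrank ℂ (QQ Y j a b) := by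
  rw [← sfm_QQ Φ]
  exact (LinearEquiv.finrank_map_eq Φ.φ _).symm

theorem sfm_bj (Φ : SFM X Y) (j : ℕ) (x y : X.R) :
    bj Y j (Φ.φ x) (Φ.φ y) = bj X j x y := by
  unfold bj
  rw [← Φ.real, ← Φ.real, ← sfm_lpow, ← sfm_lpow, Φ.isom, Φ.isom]

/-! ### Sums over an interval -/

theorem sum_Icc (g : ℤ → ℤ) (N : ℕ) : ∑ k ∈ Finset.Icc (-(N : ℤ)) N, g k =
    g 0 + ∑ i ∈ Finset.range N, (g ((i : ℤ) + 1) + g (-((i : ℤ) + 1))) := by
  induction N with
  | zero => simp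
  | succ N ih =>
    have e : Finset.Icc (-((N + 1 : ℕ) : ℤ)) ((N + 1 : ℕ) : ℤ) =
        insert ((N : ℤ) + 1) (insert (-((N : ℤ) + 1)) (Finset.Icc (-(N : ℤ)) N)) := by
      ext k
      simp only [Finset.mem_Icc, Finset.mem_insert]
      push_cast
      omega
    rw [e, Finset.sum_insert, Finset.sum_insert, ih, Finset.sum_range_succ]
    · ring
    · rw [Finset.mem_Icc]; omega
    · rw [Finset.mem_insert, Finset.mem_Icc]; omega

/-- The index set is large enough. -/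
theorem van_off (X : Fib n) {a b : ℤ} {N : ℕ} (h1 : 0 ≤ a + b + 1) (h2 : a + b ≤ n)
    (hN : n + 1 ≤ N) (k : ℤ) (hk : k ∉ Finset.Icc (-(N : ℤ)) N) : X.H (a + k, b + k) = ⊥ := by
  rw [Finset.mem_Icc] at hk
  by_cases h : a + k < 0 ∨ b + k < 0
  · exact X.van _ _ h
  · exact X.van_top (by omega)

/-- Total multiplicities. -/
theorem total (X : Fib n) (j : ℕ) {a b : ℤ} {N : ℕ} (h1 : 0 ≤ a + b + 1) (h2 : a + b ≤ n)
    (hN : n + 1 ≤ N) : (finrank ℂ (TT X j a b) : ℤ) - finrank ℂ (QQ X j a b) =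
      ∑ k ∈ Finset.Icc (-(N : ℤ)) N, mult X j (a + k) (b + k) := by
  have e1 := finrank_fam X (a := a) (b := b) (fun k => KH X j (a + k) (b + k))
    (fun k => inf_le_right) _ (van_off X h1 h2 hN)
  have e2 := finrank_fam X (a := a) (b := b) (fun k => IH X j (a + k) (b + k))
    (fun k => inf_le_right) _ (van_off X h1 h2 hN)
  unfold TT QQ
  rw [e1, e2]
  push_cast
  rw [← Finset.sum_sub_distrib]
  rfl

theorem sfm_total (Φ : SFM X Y) (j : ℕ) {a b : ℤ} {N : ℕ} (h1 : 0 ≤ a + b + 1) (h2 : a + b ≤ n)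
    (hN : n + 1 ≤ N) : ∑ k ∈ Finset.Icc (-(N : ℤ)) N, mult X j (a + k) (b + k) =
      ∑ k ∈ Finset.Icc (-(N : ℤ)) N, mult Y j (a + k) (b + k) := by
  rw [← total X j h1 h2 hN, ← total Y j h1 h2 hN, sfm_TT_finrank Φ, sfm_QQ_finrank Φ]

/-! ### The semidefinite subspaces -/

/-- The graded pieces of the semidefinite subspace. -/
noncomputable def DD (X : Fib n) (j : ℕ) (a b : ℤ) (M : Submodule ℂ X.R) (k : ℤ) :
    Submodule ℂ X.R :=
  if 0 < k then KH X j (a + k) (b + k) else if k = 0 then IH X j a b ⊔ M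
    else IH X j (a + k) (b + k)

theorem DD_le (X : Fib n) (j : ℕ) (a b : ℤ) {M : Submodule ℂ X.R} (hM : M ≤ KH X j a b)
    (k : ℤ) : DD X j a b M k ≤ KH X j (a + k) (b + k) := by
  unfold DD
  split_ifs with h1 h2
  · exact le_rfl
  · subst h2
    rw [add_zero, add_zero]
    exact sup_le (IH_le_KH _ _ _) hM
  · exact IH_le_KH _ _ _

theorem DD_finrank (X : Fib n) (j : ℕ) {a b : ℤ} {N : ℕ} (h1 : 0 ≤ a + b + 1)
    (h2 : a + b ≤ n) (hN : n + 1 ≤ N) {M : Submodule ℂ X.R} (hM : M ≤ KH X j a b)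
    (hMI : ∀ x ∈ M, x ∈ Ir X j → x = 0) :
    (finrank ℂ (⨆ k : ℤ, DD X j a b M k : Submodule ℂ X.R) : ℤ) =
      finrank ℂ (QQ X j a b) + finrank ℂ M +
        ∑ i ∈ Finset.range N, mult X j (a + ((i : ℤ) + 1)) (b + ((i : ℤ) + 1)) := by
  have e1 := finrank_fam X (a := a) (b := b) (DD X j a b M)
    (fun k => (DD_le X j a b hM k).trans inf_le_right) _ (van_off X h1 h2 hN)
  have e2 := finrank_fam X (a := a) (b := b) (fun k => IH X j (a + k) (b + k))
    (fun k => inf_le_right) _ (van_off X h1 h2 hN)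
  unfold QQ
  rw [e1, e2]
  push_cast
  have e3 : ∑ k ∈ Finset.Icc (-(N : ℤ)) N, (finrank ℂ (DD X j a b M k) : ℤ) -
      ∑ k ∈ Finset.Icc (-(N : ℤ)) N, (finrank ℂ (IH X j (a + k) (b + k)) : ℤ) =
      finrank ℂ M + ∑ i ∈ Finset.range N, mult X j (a + ((i : ℤ) + 1)) (b + ((i : ℤ) + 1)) := by
    rw [← Finset.sum_sub_distrib, sum_Icc]
    congr 1
    · have hz : DD X j a b M 0 = IH X j a b ⊔ M := by
        unfold DD
        rw [if_neg (lt_irrefl _), if_pos rfl]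
      have hdis : IH X j a b ⊓ M = ⊥ := by
        rw [eq_bot_iff]
        rintro x ⟨hx1, hx2⟩
        rw [Submodule.mem_bot]
        exact hMI x hx2 hx1.1
      have := Submodule.finrank_sup_add_finrank_inf_eq (IH X j a b) M
      rw [hdis, finrank_bot, add_zero] at this
      rw [hz, this, add_zero, add_zero]
      push_cast
      ring
    · refine Finset.sum_congr rfl fun i _ => ?_
      have hp : DD X j a b M ((i : ℤ) + 1) = KH X j (a + ((i : ℤ) + 1)) (b + ((i : ℤ) + 1)) := by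
        unfold DD
        rw [if_pos (by omega)]
      have hm : DD X j a b M (-((i : ℤ) + 1)) =
          IH X j (a + -((i : ℤ) + 1)) (b + -((i : ℤ) + 1)) := by
        unfold DD
        rw [if_neg (by omega), if_neg (by omega)]
      rw [hp, hm, sub_self, add_zero, mult_eq]
  linarith

theorem DD_value {j : ℕ} {a b : ℤ} (hab : a + b + j = n) {M : Submodule ℂ X.R}
    (hM : M ≤ KH X j a b) {x : X.R} (hx : x ∈ ⨆ k : ℤ, DD X j a b M k) :
    ∃ m ∈ M, bj X j x x = bj X j m m := by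
  -- write `x = u + i + m`
  let U : Submodule ℂ X.R := ⨆ k : ℤ, if 0 < k then KH X j (a + k) (b + k) else ⊥
  have hle : (⨆ k : ℤ, DD X j a b M k) ≤ (U ⊔ QQ X j a b) ⊔ M := by
    refine iSup_le fun k => ?_
    unfold DD
    split_ifs with h1 h2
    · refine le_sup_of_le_left (le_sup_of_le_left ?_)
      have := le_iSup (fun k : ℤ => if 0 < k then KH X j (a + k) (b + k) else ⊥) k
      simpa [h1] using this
    · refine sup_le (le_sup_of_le_left (le_sup_of_le_right ?_)) le_sup_right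
      have := le_iSup (fun k : ℤ => IH X j (a + k) (b + k)) 0
      simp only [add_zero] at this
      exact this
    · exact le_sup_of_le_left (le_sup_of_le_right (le_iSup (fun k : ℤ => IH X j (a + k) (b + k)) k))
  have hx' := hle hx
  rw [Submodule.mem_sup] at hx'
  obtain ⟨v, hv, m, hm, rfl⟩ := hx'
  rw [Submodule.mem_sup] at hv
  obtain ⟨u, hu, i, hi, rfl⟩ := hv
  refine ⟨m, hm, ?_⟩
  have hmT : m ∈ ⨆ k : ℤ, (if k = 0 then KH X j a b else ⊥ : Submodule ℂ X.R) := by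
    refine Submodule.mem_iSup_of_mem 0 ?_
    rw [if_pos rfl]
    exact hM hm
  have hUU : ∀ k l : ℤ, ∀ x ∈ (if 0 < k then KH X j (a + k) (b + k) else ⊥ : Submodule ℂ X.R),
      ∀ y ∈ (if 0 < l then KH X j (a + l) (b + l) else ⊥ : Submodule ℂ X.R),
      X.mukai (X.l ^ j * x) (X.bar y) = 0 := by
    intro k l x hx y hy
    by_cases hk : 0 < k
    · rw [if_pos hk] at hx
      by_cases hl : 0 < l
      · rw [if_pos hl] at hy
        exact mukai_exact hx.2 hy.2 (by omega)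
      · rw [if_neg hl, Submodule.mem_bot] at hy
        rw [hy, map_zero, mukai_add_r0]
    · rw [if_neg hk, Submodule.mem_bot] at hx
      rw [hx, mul_zero, mukai_add_l0]
  have hUM : ∀ k l : ℤ, ∀ x ∈ (if 0 < k then KH X j (a + k) (b + k) else ⊥ : Submodule ℂ X.R),
      ∀ y ∈ (if l = 0 then KH X j a b else ⊥ : Submodule ℂ X.R),
      X.mukai (X.l ^ j * x) (X.bar y) = 0 := by
    intro k l x hx y hy
    by_cases hk : 0 < k
    · rw [if_pos hk] at hx
      by_cases hl : l = 0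
      · rw [if_pos hl] at hy
        exact mukai_exact hx.2 hy.2 (by omega)
      · rw [if_neg hl, Submodule.mem_bot] at hy
        rw [hy, map_zero, mukai_add_r0]
    · rw [if_neg hk, Submodule.mem_bot] at hx
      rw [hx, mul_zero, mukai_add_l0]
  have hMU : ∀ k l : ℤ, ∀ x ∈ (if k = 0 then KH X j a b else ⊥ : Submodule ℂ X.R),
      ∀ y ∈ (if 0 < l then KH X j (a + l) (b + l) else ⊥ : Submodule ℂ X.R),
      X.mukai (X.l ^ j * x) (X.bar y) = 0 := by
    intro k l x hx y hy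
    by_cases hk : k = 0
    · rw [if_pos hk] at hx
      by_cases hl : 0 < l
      · rw [if_pos hl] at hy
        exact mukai_exact hx.2 hy.2 (by omega)
      · rw [if_neg hl, Submodule.mem_bot] at hy
        rw [hy, map_zero, mukai_add_r0]
    · rw [if_neg hk, Submodule.mem_bot] at hx
      rw [hx, mul_zero, mukai_add_l0]
  have hQT : ∀ k l : ℤ, ∀ x ∈ IH X j (a + k) (b + k), ∀ y ∈ KH X j (a + l) (b + l),
      X.mukai (X.l ^ j * x) (X.bar y) = 0 := fun k l x hx y hy =>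
    mukai_rad_left hx.2 hx.1 hy.2 hy.1
  have hTQ : ∀ k l : ℤ, ∀ x ∈ KH X j (a + k) (b + k), ∀ y ∈ IH X j (a + l) (b + l),
      X.mukai (X.l ^ j * x) (X.bar y) = 0 := fun k l x hx y hy =>
    mukai_rad_right hx.2 hx.1 hy.2 hy.1
  have huT : u ∈ TT X j a b := by
    have : U ≤ TT X j a b := by
      refine iSup_le fun k => ?_
      split_ifs with h
      · exact le_iSup (fun k : ℤ => KH X j (a + k) (b + k)) k
      · exact bot_le
    exact this hu
  have hmTT : m ∈ TT X j a b := by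
    refine Submodule.mem_iSup_of_mem 0 ?_
    rw [add_zero, add_zero]
    exact hM hm
  have b1 : bj X j u u = 0 := bj_iSup _ _ hUU hUU hu hu
  have b2 : bj X j u m = 0 := bj_iSup _ _ hUM hMU hu hmT
  have b3 : bj X j i u = 0 := bj_iSup _ _ hQT hTQ hi huT
  have b4 : bj X j i m = 0 := bj_iSup _ _ hQT hTQ hi hmTT
  have b5 : bj X j i i = 0 := bj_iSup _ _ hQT hTQ hi (QQ_le X j a b hi)
  simp only [bj_add, bj_add_right, b1, b2, b3, b4, b5, bj_symm j u i, bj_symm j m u,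
    bj_symm j m i]
  ring

theorem exists_sign' (n j : ℕ) (a b : ℤ) (hab : a + b + j = n) :
    ∃ e : ℝ, e ≠ 0 ∧ ∀ X : Fib n,
    ∀ x ∈ X.H (a, b), e * bj X j x x = 2 * (SS X j a b 0 x x).re := by
  obtain ⟨σ, hσ0, hσ⟩ : ∃ σ : ℝ, σ ≠ 0 ∧
      (σ : ℂ) = (-1 : ℂ) ^ ((a + b) * (a + b - 1) / 2) * (-1 : ℂ) ^ (b + j) := by
    rcases neg_one_zpow_cases ((a + b) * (a + b - 1) / 2) with h1 | h1 <;>
      rcases neg_one_zpow_cases (b + j) with h2 | h2 <;> rw [h1, h2]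
    · exact ⟨1, by norm_num, by simp⟩
    · exact ⟨-1, by norm_num, by simp⟩
    · exact ⟨-1, by norm_num, by simp⟩
    · exact ⟨1, by norm_num, by simp⟩
  refine ⟨σ, hσ0, fun X x hx => ?_⟩
  have key : SS X j a b 0 x x = (σ : ℂ) * X.mukai (X.l ^ j * x) (X.bar x) := by
    rw [mukai_mid hx hx (by omega)]
    unfold SS KRing.S
    have hI : Complex.I ^ (a + j + (b + j) : ℤ) = Complex.I ^ (a - b) * (-1 : ℂ) ^ (b + j) := by
      have e : (a + j + (b + j) : ℤ) = (a - b) + 2 * (b + j) := by ring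
      rw [e, zpow_add₀ Complex.I_ne_zero, zpow_mul]
      congr 2
      rw [show (2 : ℤ) = ((2 : ℕ) : ℤ) from rfl, zpow_natCast, Complex.I_sq]
    rw [hI, pow_zero, one_mul, hσ]
    rcases neg_one_zpow_cases (b + j) with h | h <;> rw [h] <;> ring
  rw [key, Complex.re_ofReal_mul]
  unfold bj
  ring

/-- Half of the off-middle multiplicities. -/
noncomputable def ff (X : Fib n) (j : ℕ) (N : ℕ) (a b : ℤ) : ℤ :=
  ∑ i ∈ Finset.range N, mult X j (a - ((i : ℤ) + 1)) (b - ((i : ℤ) + 1))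

theorem ff_eq (hP : RelPol X) {j : ℕ} {a b : ℤ} (hab : a + b + j = n) (N : ℕ) :
    ∑ i ∈ Finset.range N, mult X j (a + ((i : ℤ) + 1)) (b + ((i : ℤ) + 1)) = ff X j N a b := by
  unfold ff
  refine Finset.sum_congr rfl fun i _ => ?_
  have := mult_symm hP (j := j) (s := 2 * (i + 1)) (p := a - ((i : ℤ) + 1))
    (q := b - ((i : ℤ) + 1)) (by push_cast; omega)
  rw [this]
  congr 1 <;> push_cast <;> ring

theorem total_mid (hP : RelPol X) {j : ℕ} {a b : ℤ} (hab : a + b + j = n) {N : ℕ} :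
    ∑ k ∈ Finset.Icc (-(N : ℤ)) N, mult X j (a + k) (b + k) =
      mult X j a b + 2 * ff X j N a b := by
  rw [sum_Icc, Finset.sum_add_distrib, ff_eq hP hab]
  have : ∑ i ∈ Finset.range N, mult X j (a + -((i : ℤ) + 1)) (b + -((i : ℤ) + 1)) =
      ff X j N a b := by
    unfold ff
    refine Finset.sum_congr rfl fun i _ => ?_
    rw [sub_eq_add_neg, sub_eq_add_neg]
  rw [this, add_zero, add_zero]
  ring

/-- The basic inequality. -/
theorem ineq (hX : RelPol X) (hY : RelPol Y) (Φ : SFM X Y) {j : ℕ} {a b : ℤ}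
    (hab : a + b + j = n) (h1 : 0 ≤ a + b) {N : ℕ} (hN : n + 1 ≤ N)
    (e : ℝ) (M : Submodule ℂ X.R) (M' : Submodule ℂ Y.R) (hM : M ≤ KH X j a b)
    (hM' : M' ≤ KH Y j a b) (hMI : ∀ x ∈ M, x ∈ Ir X j → x = 0)
    (hMI' : ∀ x ∈ M', x ∈ Ir Y j → x = 0) (p1 : ∀ x ∈ M, 0 ≤ e * bj X j x x)
    (p2 : ∀ x ∈ M', e * bj Y j x x ≤ 0) (he : e ≠ 0) :
    ff X j N a b + finrank ℂ M + (ff Y j N a b + finrank ℂ M') ≤
      2 * ff Y j N a b + mult Y j a b := by
  have hle : ∀ (Z : Fib n) (M : Submodule ℂ Z.R), M ≤ KH Z j a b →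
      (⨆ k : ℤ, DD Z j a b M k) ≤ TT Z j a b := fun Z M hM => iSup_mono (DD_le Z j a b hM)
  have := semi_deg (TT Y j a b) (QQ Y j a b)
    (Submodule.map (Φ.φ : X.R →ₗ[ℂ] Y.R) (⨆ k : ℤ, DD X j a b M k))
    (⨆ k : ℤ, DD Y j a b M' k) (QQ_le _ _ _ _)
    (by
      rw [← sfm_TT Φ]
      exact Submodule.map_mono (hle X M hM))
    (hle Y M' hM') (fun x y => e * bj Y j x y)
    (fun x y z => by
      show e * bj Y j (x + y) z = e * bj Y j x z + e * bj Y j y z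
      rw [bj_add]; ring)
    (fun r x z => by
      show e * bj Y j ((r : ℂ) • x) z = r * (e * bj Y j x z)
      rw [bj_smul]; ring)
    (fun x y => by
      show e * bj Y j x y = e * bj Y j y x
      rw [bj_symm])
    (fun x hx h => nondeg hab hx fun y hy => by
      have := h y hy
      exact (mul_eq_zero.mp this).resolve_left he)
    (by
      rintro _ ⟨x, hx, rfl⟩
      obtain ⟨m, hm, hxm⟩ := DD_value hab hM hx
      show 0 ≤ e * bj Y j (Φ.φ x) (Φ.φ x)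
      rw [sfm_bj, hxm]
      exact p1 m hm)
    (by
      intro x hx
      obtain ⟨m, hm, hxm⟩ := DD_value hab hM' hx
      show e * bj Y j x x ≤ 0
      rw [hxm]
      exact p2 m hm)
  rw [LinearEquiv.finrank_map_eq] at this
  have e1 := DD_finrank X j (by omega) (by omega) hN hM hMI
  have e2 := DD_finrank Y j (by omega) (by omega) hN hM' hMI'
  have e3 := total Y j (a := a) (b := b) (by omega) (by omega) hN
  rw [ff_eq hX hab] at e1
  rw [ff_eq hY hab] at e2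
  rw [total_mid hY hab] at e3
  have e4 := sfm_QQ_finrank Φ j a b
  have this' : (finrank ℂ (⨆ k : ℤ, DD X j a b M k : Submodule ℂ X.R) : ℤ) +
      finrank ℂ (⨆ k : ℤ, DD Y j a b M' k : Submodule ℂ Y.R) ≤
      finrank ℂ (TT Y j a b) + finrank ℂ (QQ Y j a b) := by exact_mod_cast this
  rw [e1, e2, e4] at this'
  linarith

theorem main (hX : RelPol X) (hY : RelPol Y) (Φ : SFM X Y) {j : ℕ}
    {a b : ℤ} (hab : a + b + j = n) (h1 : 0 ≤ a + b) {N : ℕ} (hN : n + 1 ≤ N)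
    (r : ℕ) (hr : a < r) :
    ff X j N a b + AA X j r a b = ff Y j N a b + AA Y j r a b ∧
      mult X j a b + 2 * ff X j N a b = mult Y j a b + 2 * ff Y j N a b := by
  obtain ⟨e, he, hS⟩ := exists_sign' n j a b hab
  obtain ⟨M₁, M₂, hM₁, hM₂, p1, p2, hs, hA⟩ := definite hX j r a b 0 (by simpa using hab) hr
  obtain ⟨N₁, N₂, hN₁, hN₂, q1, q2, hs', hA'⟩ := definite hY j r a b 0 (by simpa using hab) hr
  have pos : ∀ (Z : Fib n) (M : Submodule ℂ Z.R), M ≤ KH Z j a b →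
      (∀ x ∈ M, x ≠ 0 → 0 < (SS Z j a b 0 x x).re) → ∀ x ∈ M, 0 ≤ e * bj Z j x x := by
    intro Z M hM h x hx
    rw [hS Z x (hM hx).2]
    by_cases h0 : x = 0
    · rw [h0]; unfold SS KRing.S; simp
    · have := h x hx h0; linarith
  have neg : ∀ (Z : Fib n) (M : Submodule ℂ Z.R), M ≤ KH Z j a b →
      (∀ x ∈ M, x ≠ 0 → (SS Z j a b 0 x x).re < 0) → ∀ x ∈ M, e * bj Z j x x ≤ 0 := by
    intro Z M hM h x hx
    rw [hS Z x (hM hx).2]
    by_cases h0 : x = 0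
    · rw [h0]; unfold SS KRing.S; simp
    · have := h x hx h0; linarith
  have posI : ∀ (Z : Fib n) (M : Submodule ℂ Z.R), M ≤ KH Z j a b →
      (∀ x ∈ M, x ≠ 0 → 0 < (SS Z j a b 0 x x).re) → ∀ x ∈ M, x ∈ Ir Z j → x = 0 := by
    intro Z M hM h x hx hI
    by_contra h0
    have := h x hx h0
    rw [SS_Ir j _ _ _ x x hI (hM hx).1] at this
    simp at this
  have negI : ∀ (Z : Fib n) (M : Submodule ℂ Z.R), M ≤ KH Z j a b →
      (∀ x ∈ M, x ≠ 0 → (SS Z j a b 0 x x).re < 0) → ∀ x ∈ M, x ∈ Ir Z j → x = 0 := by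
    intro Z M hM h x hx hI
    by_contra h0
    have := h x hx h0
    rw [SS_Ir j _ _ _ x x hI (hM hx).1] at this
    simp at this
  have i1 := ineq hX hY Φ hab h1 hN e M₁ N₂ hM₁ hN₂ (posI X M₁ hM₁ p1) (negI Y N₂ hN₂ q2)
    (pos X M₁ hM₁ p1) (neg Y N₂ hN₂ q2) he
  have i2 := ineq hX hY Φ hab h1 hN (-e) M₂ N₁ hM₂ hN₁ (negI X M₂ hM₂ p2) (posI Y N₁ hN₁ q1)
    (fun x hx => by have := neg X M₂ hM₂ p2 x hx; linarith)
    (fun x hx => by have := pos Y N₁ hN₁ q1 x hx; linarith) (neg_ne_zero.mpr he)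
  have i3 := sfm_total Φ j (a := a) (b := b) (N := N) (by omega) (by omega) hN
  rw [total_mid hX hab, total_mid hY hab] at i3
  refine ⟨?_, i3⟩
  linarith

end Pool.Agent.X268.DH
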