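import Pool.Agent.X268.DH.Main

open scoped ComplexConjugate
open Module

namespace Pool.Agent.X268.DH

open Pool.Agent.W539.DI

variable {n : ℕ} {X Y : Fib n}

/-- The dimension of the classes of type `(p, q)` killed by `l ^ m`. -/
noncomputable def kap (X : Fib n) (m : ℕ) (p q : ℤ) : ℤ :=
  finrank ℂ (Kr X m ⊓ X.H (p, q) : Submodule ℂ X.R)

theorem mult_kap (X : Fib n) (j : ℕ) (p q : ℤ) : mult X j p q =
    (kap X (j + 1) p q - kap X j p q) -
      (kap X (j + 2) (p - 1) (q - 1) - kap X (j + 1) (p - 1) (q - 1)) := by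
  have hmem : ∀ x ∈ X.H (p - 1, q - 1), X.l * x ∈ X.H (p, q) := by
    intro x hx
    have := X.mul_mem X.l_mem hx
    have e : ((1 + (p - 1), 1 + (q - 1)) : ℤ × ℤ) = (p, q) := by ext <;> simp
    rwa [e] at this
  have key := quot_dim (LinearMap.mulLeft ℂ X.l) (Kr X (j + 2) ⊓ X.H (p - 1, q - 1))
    (Kr X (j + 1) ⊓ X.H (p - 1, q - 1)) (Ir X j ⊓ X.H (p, q)) (Kr X j ⊓ X.H (p, q))
    (by
      refine inf_le_inf ?_ le_rfl
      intro x hx
      rw [mem_Kr] at *
      rw [show j + 2 = (j + 1) + 1 from rfl, pow_succ', mul_assoc, hx, mul_zero])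
    (inf_le_inf le_sup_left le_rfl)
    (fun x hx => ⟨mem_Ir.mpr ⟨0, x, by simp, hx.1, by simp⟩, hmem x hx.2⟩)
    (fun x hx => by
      have e : X.l ^ j * (X.l * x) = X.l ^ (j + 1) * x := by rw [pow_succ, mul_assoc]
      constructor
      · intro h
        refine ⟨?_, hx.2⟩
        have h1 : X.l ^ j * (X.l * x) = 0 := h.1
        show X.l ^ (j + 1) * x = 0
        rw [← e, h1]
      · intro h
        refine ⟨?_, hmem x hx.2⟩
        show X.l ^ j * (X.l * x) = 0
        rw [e]
        exact h.1)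
    (fun y hy => by
      obtain ⟨u, w, hu, hw, huw⟩ := mem_Ir.mp hy.1
      have hcw := DirectSum.coe_decompose_mul_add_of_left_mem (𝒜 := X.H) (a := X.l) (b := w)
        (i := (1, 1)) (j := (p - 1, q - 1)) X.l_mem
      have e : ((1, 1) + (p - 1, q - 1) : ℤ × ℤ) = (p, q) := by ext <;> simp
      rw [e] at hcw
      refine ⟨(DirectSum.decompose X.H w (p - 1, q - 1) : X.R),
        ⟨homog_Kr (j + 2) w hw _, SetLike.coe_mem _⟩, ?_⟩
      have h1 : y = (DirectSum.decompose X.H u (p, q) : X.R) +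
          X.l * (DirectSum.decompose X.H w (p - 1, q - 1) : X.R) := by
        conv_lhs => rw [← DirectSum.decompose_of_mem_same X.H hy.2]
        rw [← huw, DirectSum.decompose_add, DirectSum.add_apply, Submodule.coe_add, hcw]
      have h2 : y - X.l * (DirectSum.decompose X.H w (p - 1, q - 1) : X.R) =
          (DirectSum.decompose X.H u (p, q) : X.R) := by
        rw [sub_eq_iff_eq_add]
        exact h1
      show y - X.l * (DirectSum.decompose X.H w (p - 1, q - 1) : X.R) ∈ _
      rw [h2]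
      exact ⟨homog_Kr j u hu _, SetLike.coe_mem _⟩)
  unfold mult kap
  omega

theorem kap_zero (X : Fib n) (p q : ℤ) : kap X 0 p q = 0 := by
  unfold kap
  have : Kr X 0 = ⊥ := by
    rw [eq_bot_iff]
    intro x hx
    rw [mem_Kr, pow_zero, one_mul] at hx
    exact hx
  rw [this, bot_inf_eq, finrank_bot]
  rfl

theorem kap_top (X : Fib n) (p q : ℤ) : kap X (n + 1) p q = X.h p q := by
  unfold kap KRing.h
  have : Kr X (n + 1) ⊓ X.H (p, q) = X.H (p, q) := by
    refine le_antisymm inf_le_right fun x hx => ⟨?_, hx⟩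
    show X.l ^ (n + 1) * x = 0
    by_cases hp : p < 0
    · rw [X.van p q (Or.inl hp), Submodule.mem_bot] at hx
      rw [hx, mul_zero]
    · have h1 := X.pow_mul_mem X.l_mem (n + 1) hx
      rw [X.van_top (by push_cast; omega), Submodule.mem_bot] at h1
      exact h1
  rw [this]

/-- The dimension of the quotient of `ker l ^ (m + 1)` by `ker l ^ m` in type `(p, q)`. -/
noncomputable def Dk (X : Fib n) (m : ℕ) (p q : ℤ) : ℤ := kap X (m + 1) p q - kap X m p q

theorem Dk_rec (X : Fib n) (m : ℕ) (p q : ℤ) :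
    Dk X m p q = mult X m p q + Dk X (m + 1) (p - 1) (q - 1) := by
  unfold Dk
  rw [mult_kap]
  ring

theorem Dk_van (X : Fib n) (m : ℕ) {p q : ℤ} (h : p < 0) : Dk X m p q = 0 := by
  unfold Dk kap
  rw [X.van p q (Or.inl h), inf_bot_eq, inf_bot_eq, sub_self]

theorem Dk_agree (m₀ : ℕ) (h : ∀ j, m₀ ≤ j → ∀ p q, mult X j p q = mult Y j p q) :
    ∀ (r : ℕ) (m : ℕ), m₀ ≤ m → ∀ p q : ℤ, p < r → Dk X m p q = Dk Y m p q := by
  intro r
  induction r with
  | zero =>
    intro m _ p q hp
    rw [Dk_van X m (by simpa using hp), Dk_van Y m (by simpa using hp)]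
  | succ r ih =>
    intro m hm p q hp
    rw [Dk_rec X, Dk_rec Y, h m hm, ih (m + 1) (by omega) (p - 1) (q - 1) (by push_cast at hp; omega)]

theorem h_sum (X : Fib n) (p q : ℤ) : (X.h p q : ℤ) = ∑ m ∈ Finset.range (n + 1), Dk X m p q := by
  unfold Dk
  rw [Finset.sum_range_sub (fun m => kap X m p q), kap_top, kap_zero, sub_zero]

/-- If the multiplicities of the Jordan blocks of length at least two agree, then the differences
of the Hodge numbers are the differences of the multiplicities of the blocks of length one. -/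
theorem h_diff (h : ∀ j, 1 ≤ j → ∀ p q, mult X j p q = mult Y j p q) (p q : ℤ) :
    (X.h p q : ℤ) - Y.h p q = mult X 0 p q - mult Y 0 p q := by
  obtain ⟨r, hr⟩ : ∃ r : ℕ, p < r := ⟨(p + 1).toNat, by omega⟩
  rw [h_sum, h_sum, Finset.sum_range_succ', Finset.sum_range_succ']
  have e : ∀ m ∈ Finset.range n, Dk X (m + 1) p q = Dk Y (m + 1) p q := fun m _ =>
    Dk_agree 1 h r (m + 1) (by omega) p q hr
  rw [Finset.sum_congr rfl e, Dk_rec X 0, Dk_rec Y 0,
    Dk_agree 1 h r (0 + 1) (by omega) (p - 1) (q - 1) (by omega)]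
  ring

end Pool.Agent.X268.DH
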